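import Mathlib

set_option autoImplicit false
set_option linter.unusedSectionVars false

namespace Pool.Agent.X39.SW

section groups

theorem relIndex_exact {A B C : Type*} [AddCommGroup A] [AddCommGroup B] [AddCommGroup C]
    (f : A →+ B) (g : B →+ C) (hfg : f.range = g.ker) (W D : AddSubgroup B) (hWD : W ≤ D) :
    W.relIndex D = (W.comap f).relIndex (D.comap f) * (W.map g).relIndex (D.map g) := by
  have h1 : (W.map g).relIndex (D.map g) = (W ⊔ g.ker).relIndex D := by
    rw [AddSubgroup.relIndex_map_map]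
    have : D ⊔ g.ker = D ⊔ (W ⊔ g.ker) := by
      rw [← sup_assoc, sup_eq_left.2 hWD]
    rw [this, AddSubgroup.relIndex_sup_right]
  have h2 : (W.comap f).relIndex (D.comap f) = W.relIndex ((W ⊔ g.ker) ⊓ D) := by
    rw [AddSubgroup.relIndex_comap, AddSubgroup.map_comap_eq, hfg,
      sup_inf_assoc_of_le _ hWD, AddSubgroup.relIndex_sup_left]
  rw [h1, h2, ← AddSubgroup.inf_relIndex_right (W ⊔ g.ker) D,
    AddSubgroup.relIndex_mul_relIndex _ _ _ (le_inf le_sup_left hWD) inf_le_right]

theorem card_modEq_one {Q : Type*} [AddCommGroup Q] [Finite Q] (ω : Q →+ Q)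
    (h2 : ∀ q : Q, (2 : ℕ) • q = 0) (hω : ∀ q, ω (ω q) + ω q + q = 0) :
    Nat.card Q ≡ 1 [MOD 3] := by
  classical
  have := Fintype.ofFinite Q
  have : Fact (Nat.Prime 3) := ⟨by norm_num⟩
  have h3 : ∀ q, ω (ω (ω q)) = q := by
    intro q
    have := hω q
    have h := hω (ω q)
    have e1 : ω (ω q) = -(ω q) - q := by
      rw [eq_sub_iff_add_eq, eq_neg_iff_add_eq_zero]
      rw [← this]; abel
    rw [e1, map_sub, map_neg, e1]
    abel
  have key := Equiv.Perm.card_fixedPoints_modEq (α := Q) (f := (ω : Q → Q)) (p := 3) (n := 1) (by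
    rw [pow_one]
    funext q
    exact h3 q)
  rw [Nat.card_eq_fintype_card]
  refine key.trans ?_
  have : Fintype.card (Function.fixedPoints (ω : Q → Q)) = 1 := by
    rw [Fintype.card_eq_one_iff]
    refine ⟨⟨0, map_zero ω⟩, ?_⟩
    rintro ⟨q, hq⟩
    apply Subtype.ext
    change q = 0
    have hq' : ω q = q := hq
    have := hω q
    rw [hq', hq'] at this
    have h := h2 q
    rw [two_smul] at h
    rwa [h, zero_add] at this
  rw [this]

theorem relIndex_modEq_one {A : Type*} [AddCommGroup A] (htf : ∀ a : A, (2 : ℕ) • a = 0 → a = 0)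
    (J : A →+ A) (S T : AddSubgroup A) (hJ : ∀ t ∈ T, J (J t) = -((3 : ℕ) • t))
    (hT : ∀ t ∈ T, ∃ t' ∈ T, (2 : ℕ) • t' = -t + J t)
    (hS : ∀ t ∈ S, ∃ t' ∈ S, (2 : ℕ) • t' = -t + J t)
    (h2 : ∀ t ∈ T, (2 : ℕ) • t ∈ S) (h0 : S.relIndex T ≠ 0) : S.relIndex T ≡ 1 [MOD 3] := by
  have inj : ∀ a b : A, (2 : ℕ) • a = (2 : ℕ) • b → a = b := by
    intro a b h
    rw [← sub_eq_zero]
    apply htf
    rw [smul_sub, h, sub_self]
  choose! w hwT hw using hT
  let ω : T →+ T :=
    { toFun := fun t => ⟨w t, hwT t t.2⟩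
      map_zero' := by
        apply Subtype.ext
        apply inj
        change (2 : ℕ) • w ((0 : T) : A) = _
        rw [hw _ (0 : T).2]
        simp
      map_add' := by
        intro a b
        apply Subtype.ext
        apply inj
        change (2 : ℕ) • w ((a + b : T) : A) = (2 : ℕ) • (w a + w b)
        rw [hw _ (a + b).2, smul_add, hw _ a.2, hw _ b.2]
        push_cast
        rw [map_add]
        abel }
  have hωc : ∀ t : T, (2 : ℕ) • ((ω t : T) : A) = - (t : A) + J t := fun t => hw t t.2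
  have hle : S.addSubgroupOf T ≤ (S.addSubgroupOf T).comap ω := by
    intro t ht
    rw [AddSubgroup.mem_comap, AddSubgroup.mem_addSubgroupOf]
    rw [AddSubgroup.mem_addSubgroupOf] at ht
    obtain ⟨s', hs', h⟩ := hS _ ht
    have : ((ω t : T) : A) = s' := inj _ _ (by rw [hωc, h])
    rw [this]
    exact hs'
  let q : (T ⧸ S.addSubgroupOf T) →+ (T ⧸ S.addSubgroupOf T) := QuotientAddGroup.map _ _ ω hle
  have : Finite (T ⧸ S.addSubgroupOf T) := by
    have : Nat.card (T ⧸ S.addSubgroupOf T) ≠ 0 := h0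
    exact Nat.finite_of_card_ne_zero this
  have := card_modEq_one q (by
    intro x
    induction x using QuotientAddGroup.induction_on with
    | H t =>
      rw [← QuotientAddGroup.mk_nsmul, QuotientAddGroup.eq_zero_iff, AddSubgroup.mem_addSubgroupOf]
      exact h2 t t.2) (by
    intro x
    induction x using QuotientAddGroup.induction_on with
    | H t =>
      change ((ω (ω t) + ω t + t : T) : T ⧸ S.addSubgroupOf T) = 0
      have : ω (ω t) + ω t + t = 0 := by
        apply Subtype.ext
        apply inj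
        apply inj
        push_cast
        have e1 := hωc t
        have e2 := hωc (ω t)
        have e3 := hJ t t.2
        have e4 : (2 : ℕ) • J ((ω t : T) : A) = - J t + J (J t) := by
          rw [← map_nsmul, e1, map_add, map_neg]
        have e5 : (2 : ℕ) • (2 : ℕ) • ((ω (ω t) : T) : A) = -((2 : ℕ) • ((ω t : T) : A)) +
            (2 : ℕ) • J ((ω t : T) : A) := by
          rw [e2, smul_add, smul_neg]
        rw [smul_add, smul_add, smul_add, smul_add, e5, e4, e3]
        rw [e1]
        simp only [smul_zero]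
        abel
      rw [this]
      rfl)
  exact this

theorem not_three_dvd {Q : Type*} [AddCommGroup Q] [Finite Q]
    (h2 : ∀ q : Q, (2 : ℕ) • q = 0) : ¬ 3 ∣ Nat.card Q := by
  have : Fact (Nat.Prime 3) := ⟨by norm_num⟩
  intro h
  obtain ⟨x, hx⟩ := exists_prime_addOrderOf_dvd_card' 3 h
  have h3 : (3 : ℕ) • x = 0 := by rw [← hx]; exact addOrderOf_nsmul_eq_zero x
  have h4 := h2 x
  have h5 : x = 0 := by
    have : (3 : ℕ) • x = (2 : ℕ) • x + x := succ_nsmul x 2
    rw [h3, h4, zero_add] at this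
    exact this.symm
  rw [h5, addOrderOf_zero] at hx
  norm_num at hx

theorem relIndex_not_three_dvd {A : Type*} [AddCommGroup A] (S T : AddSubgroup A)
    (h2 : ∀ t ∈ T, (2 : ℕ) • t ∈ S) (h0 : S.relIndex T ≠ 0) : ¬ 3 ∣ S.relIndex T := by
  have : Finite (T ⧸ S.addSubgroupOf T) := by
    have : Nat.card (T ⧸ S.addSubgroupOf T) ≠ 0 := h0
    exact Nat.finite_of_card_ne_zero this
  apply not_three_dvd (Q := T ⧸ S.addSubgroupOf T)
  intro x
  induction x using QuotientAddGroup.induction_on with
  | H t =>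
    rw [← QuotientAddGroup.mk_nsmul, QuotientAddGroup.eq_zero_iff, AddSubgroup.mem_addSubgroupOf]
    exact h2 t t.2

end groups

end Pool.Agent.X39.SW
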