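import Pool.Agent.X39.SW.Stmt

set_option autoImplicit false
set_option linter.unusedSectionVars false

namespace Pool.Agent.X39.SW

open scoped TensorProduct

noncomputable section

section

variable {R K A : Type} [CommRing R] [Field K] [Algebra R K] [Ring A] [Algebra K A] [Algebra R A]
  [IsScalarTower R K A]

theorem natMap_comm (Λ : Subalgebra R A) (k : K) (l : Λ) :
    Commute (Algebra.ofId K A k) (Λ.val l) := Algebra.commutes k _

/-- The natural map `K ⊗_R Λ → A`. -/
def natMap (K : Type) [Field K] [Algebra R K] [Algebra K A] [IsScalarTower R K A]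
    (Λ : Subalgebra R A) : K ⊗[R] Λ →ₐ[K] A :=
  Algebra.TensorProduct.lift (Algebra.ofId K A) Λ.val (natMap_comm Λ)

theorem natMap_tmul (Λ : Subalgebra R A) (k : K) (l : Λ) : natMap K Λ (k ⊗ₜ l) = k • (l : A) := by
  rw [natMap, Algebra.TensorProduct.lift_tmul, Algebra.smul_def]
  rfl

theorem isLoc [IsDomain R] [IsFractionRing R K] (Λ : Subalgebra R A)
    (h : Submodule.span K (Λ : Set A) = ⊤) :
    IsLocalizedModule (nonZeroDivisors R) (Λ.val.toLinearMap) := by
  have hK : ∀ s : nonZeroDivisors R, algebraMap R K s ≠ 0 := fun s =>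
    IsFractionRing.to_map_ne_zero_of_mem_nonZeroDivisors s.2
  have hs : ∀ (s : R) (a : A), s • a = algebraMap R K s • a := fun s a =>
    (algebraMap_smul K s a).symm
  refine ⟨?_, ?_, ?_⟩
  · intro s
    rw [Module.End.isUnit_iff]
    constructor
    · intro a b hab
      have h1 : (s : R) • a = (s : R) • b := hab
      rw [hs, hs] at h1
      exact smul_right_injective A (hK s) h1
    · intro a
      refine ⟨(algebraMap R K s)⁻¹ • a, ?_⟩
      change (s : R) • ((algebraMap R K s)⁻¹ • a) = a
      rw [hs, smul_smul, mul_inv_cancel₀ (hK s), one_smul]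
  · intro a
    have ha : a ∈ Submodule.span K (Λ : Set A) := by rw [h]; trivial
    induction ha using Submodule.span_induction with
    | mem x hx => exact ⟨(⟨x, hx⟩, 1), by rw [one_smul]; rfl⟩
    | zero => exact ⟨(0, 1), by simp⟩
    | add x y _ _ hx hy =>
      obtain ⟨⟨l, s⟩, h1⟩ := hx
      obtain ⟨⟨m, t⟩, h2⟩ := hy
      refine ⟨((t : R) • l + (s : R) • m, s * t), ?_⟩
      have h1' : (s : R) • x = Λ.val.toLinearMap l := h1
      have h2' : (t : R) • y = Λ.val.toLinearMap m := h2
      change ((s * t : nonZeroDivisors R) : R) • (x + y) = Λ.val.toLinearMap ((t : R) • l + (s : R) • m)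
      rw [map_add, map_smul, map_smul, ← h1', ← h2', smul_add, Submonoid.coe_mul, smul_smul,
        smul_smul, mul_comm (t : R) s]
    | smul k x _ hx =>
      obtain ⟨⟨l, s⟩, h1⟩ := hx
      obtain ⟨⟨r, t⟩, h2⟩ := IsLocalization.surj (nonZeroDivisors R) k
      refine ⟨(r • l, s * t), ?_⟩
      have h1' : (s : R) • x = Λ.val.toLinearMap l := h1
      have h2' : k * algebraMap R K t = algebraMap R K r := h2
      change ((s * t : nonZeroDivisors R) : R) • (k • x) = Λ.val.toLinearMap (r • l)
      rw [map_smul, ← h1', hs, hs, hs, smul_smul, smul_smul, ← h2', Submonoid.coe_mul, map_mul]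
      ring_nf
  · intro a b hab
    exact ⟨1, by rw [Subtype.ext hab]⟩

theorem natMap_bijective [IsDomain R] [IsFractionRing R K] (Λ : Subalgebra R A)
    (h : Submodule.span K (Λ : Set A) = ⊤) : Function.Bijective (natMap K Λ) := by
  have h1 := isLoc (K := K) Λ h
  have h2 : IsBaseChange K (Λ.val.toLinearMap) :=
    (isLocalizedModule_iff_isBaseChange (nonZeroDivisors R) K _).1 h1
  have h3 : (natMap K Λ : K ⊗[R] Λ → A) = h2.equiv := by
    funext z
    induction z using TensorProduct.induction_on with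
    | zero => rw [map_zero, map_zero]
    | add x y hx hy => rw [map_add, map_add, hx, hy]
    | tmul k l => rw [natMap_tmul, IsBaseChange.equiv_tmul]; rfl
  rw [h3]
  exact h2.equiv.bijective

theorem tAct_comm {B : Type} [Ring B] [Algebra R B] (M : Lat R B) (k : K) (b : B) :
    Commute (Algebra.ofId K (Module.End K (K ⊗[R] M.carrier)) k)
      (((Module.End.baseChangeHom R K M.carrier).comp
        (Algebra.lsmul R R M.carrier : B →ₐ[R] Module.End R M.carrier)) b) :=
  Algebra.commutes k _

/-- The action of `K ⊗_R B` on `K ⊗_R M`, for a `B`-lattice `M`. -/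
def tAct (K : Type) [Field K] [Algebra R K] {B : Type} [Ring B] [Algebra R B] (M : Lat R B) :
    K ⊗[R] B →ₐ[K] Module.End K (K ⊗[R] M.carrier) :=
  Algebra.TensorProduct.lift (Algebra.ofId K _)
    ((Module.End.baseChangeHom R K M.carrier).comp
      (Algebra.lsmul R R M.carrier : B →ₐ[R] Module.End R M.carrier))
    (tAct_comm M)

theorem tAct_tmul {B : Type} [Ring B] [Algebra R B] (M : Lat R B) (k k' : K) (b : B)
    (m : M.carrier) : tAct K M (k ⊗ₜ b) (k' ⊗ₜ m) = (k * k') ⊗ₜ (b • m) := by
  rw [tAct, Algebra.TensorProduct.lift_tmul]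
  rfl

variable [IsDomain R] [IsFractionRing R K]

/-- The action of `A = KΛ` on `K ⊗_R M`, for a `Λ`-lattice `M`: it is the action of `K ⊗_R Λ`,
which is identified with `A` by the natural map. -/
def extAct (Λ : Subalgebra R A) (h : Submodule.span K (Λ : Set A) = ⊤) (M : Lat R Λ) :
    A →ₐ[K] Module.End K (K ⊗[R] M.carrier) :=
  (tAct K M).comp (AlgEquiv.ofBijective (natMap K Λ) (natMap_bijective Λ h)).symm.toAlgHom

theorem extAct_natMap (Λ : Subalgebra R A) (h : Submodule.span K (Λ : Set A) = ⊤) (M : Lat R Λ)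
    (z : K ⊗[R] Λ) : extAct Λ h M (natMap K Λ z) = tAct K M z := by
  rw [extAct, AlgHom.comp_apply]
  congr 1
  exact (AlgEquiv.ofBijective (natMap K Λ) (natMap_bijective Λ h)).symm_apply_apply z

/-- The `A`-module structure on `K ⊗_R M`. -/
abbrev extModule (Λ : Subalgebra R A) (h : Submodule.span K (Λ : Set A) = ⊤) (M : Lat R Λ) :
    Module A (K ⊗[R] M.carrier) :=
  Module.compHom _ (extAct Λ h M).toRingHom

theorem ext_fin (Λ : Subalgebra R A) (hf : Module.Finite R Λ)
    (h : Submodule.span K (Λ : Set A) = ⊤) (M : Lat R Λ) :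
    @Module.Finite A (K ⊗[R] M.carrier) _ _ (extModule Λ h M) := by
  let _ := extModule Λ h M
  have : Module.Finite R M.carrier := Module.Finite.trans Λ M.carrier
  have : IsScalarTower K A (K ⊗[R] M.carrier) := ⟨fun k a x => by
    change extAct Λ h M (k • a) x = k • extAct Λ h M a x
    rw [map_smul]
    rfl⟩
  exact Module.Finite.of_restrictScalars_finite K A (K ⊗[R] M.carrier)

/-- Extension of scalars: the `A`-module `M ⊗_R K`. -/
def ext (Λ : Subalgebra R A) (hf : Module.Finite R Λ)
    (h : Submodule.span K (Λ : Set A) = ⊤) (M : Lat R Λ) : FGMod A where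
  carrier := K ⊗[R] M.carrier
  mod := extModule Λ h M
  fin := ext_fin Λ hf h M

/-- Extension of scalars on linear maps. -/
def extMap (Λ : Subalgebra R A) (hf : Module.Finite R Λ)
    (h : Submodule.span K (Λ : Set A) = ⊤) {M N : Lat R Λ} (f : M.carrier →ₗ[Λ] N.carrier) :
    (ext Λ hf h M).carrier →ₗ[A] (ext Λ hf h N).carrier where
  toFun := LinearMap.baseChange K (f.restrictScalars R)
  map_add' := map_add _
  map_smul' := by
    intro a x
    change (LinearMap.baseChange K (f.restrictScalars R)) (extAct Λ h M a x) =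
      extAct Λ h N a ((LinearMap.baseChange K (f.restrictScalars R)) x)
    obtain ⟨z, rfl⟩ := (natMap_bijective (K := K) Λ h).2 a
    rw [extAct_natMap, extAct_natMap]
    change K ⊗[R] M.carrier at x
    induction z using TensorProduct.induction_on with
    | zero => simp
    | add z w hz hw =>
      rw [map_add, map_add, LinearMap.add_apply, LinearMap.add_apply, map_add, hz, hw]
    | tmul k b =>
      induction x using TensorProduct.induction_on with
      | zero => simp
      | add x y hx hy => rw [map_add, map_add, map_add, map_add, hx, hy]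
      | tmul k' m =>
        rw [tAct_tmul, LinearMap.baseChange_tmul, LinearMap.baseChange_tmul, tAct_tmul]
        simp

theorem extMap_eq (Λ : Subalgebra R A) (hf : Module.Finite R Λ)
    (h : Submodule.span K (Λ : Set A) = ⊤) {M N : Lat R Λ} (f : M.carrier →ₗ[Λ] N.carrier) :
    (extMap Λ hf h f : (ext Λ hf h M).carrier → (ext Λ hf h N).carrier) =
      (LinearMap.lTensor K (f.restrictScalars R) :
        K ⊗[R] M.carrier → K ⊗[R] N.carrier) := by
  rfl

theorem ext_exact (Λ : Subalgebra R A) (hfin : Module.Finite R Λ)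
    (h : Submodule.span K (Λ : Set A) = ⊤) {M' M M'' : Lat R Λ} (f : M'.carrier →ₗ[Λ] M.carrier)
    (g : M.carrier →ₗ[Λ] M''.carrier) (hf : Function.Injective f) (hfg : Function.Exact f g)
    (hg : Function.Surjective g) :
    Function.Injective (extMap Λ hfin h f) ∧ Function.Exact (extMap Λ hfin h f)
      (extMap Λ hfin h g) ∧ Function.Surjective (extMap Λ hfin h g) := by
  have : Module.Flat R K := IsLocalization.flat K (nonZeroDivisors R)
  refine ⟨?_, ?_, ?_⟩
  · rw [extMap_eq]
    exact Module.Flat.lTensor_preserves_injective_linearMap _ hf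
  · rw [extMap_eq, extMap_eq]
    exact lTensor_exact K hfg hg
  · rw [extMap_eq]
    exact LinearMap.lTensor_surjective K hg

theorem phi_aux (Λ : Subalgebra R A) (hfin : Module.Finite R Λ)
    (h : Submodule.span K (Λ : Set A) = ⊤) : AddSubgroup.closure (latRel R Λ) ≤
    (FreeAbelianGroup.lift fun M : Lat R Λ => G0.mk (ext Λ hfin h M)).ker := by
  rw [AddSubgroup.closure_le]
  rintro x ⟨M', M, M'', f, g, hf, hfg, hg, rfl⟩
  obtain ⟨h1, h2, h3⟩ := ext_exact Λ hfin h f g hf hfg hg
  simp only [SetLike.mem_coe, AddMonoidHom.mem_ker, map_sub, map_add,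
    FreeAbelianGroup.lift_apply_of]
  rw [G0.mk, G0.mk, G0.mk, ← QuotientAddGroup.mk_add, ← QuotientAddGroup.mk_sub,
    QuotientAddGroup.eq_zero_iff]
  exact AddSubgroup.subset_closure ⟨ext Λ hfin h M', ext Λ hfin h M, ext Λ hfin h M'',
    extMap Λ hfin h f, extMap Λ hfin h g, h1, h2, h3, rfl⟩

/-- Extension of scalars `G_0^R(Λ) → G_0(A)`, `[M] ↦ [M ⊗_R K]`, for an `R`-order `Λ` in `A`. -/
def phi0 (Λ : Subalgebra R A) (hfin : Module.Finite R Λ)
    (h : Submodule.span K (Λ : Set A) = ⊤) : G0R R Λ →+ G0 A :=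
  QuotientAddGroup.lift _ (FreeAbelianGroup.lift fun M => G0.mk (ext Λ hfin h M))
    (phi_aux Λ hfin h)

theorem phi0_mk (Λ : Subalgebra R A) (hfin : Module.Finite R Λ)
    (h : Submodule.span K (Λ : Set A) = ⊤) (M : Lat R Λ) :
    phi0 Λ hfin h (G0R.mk M) = G0.mk (ext Λ hfin h M) := by
  simp [phi0, G0R.mk]

end

section

theorem G0_zero {A : Type} [Ring A] : G0.mk (⟨PUnit⟩ : FGMod A) = 0 := by
  have h : FreeAbelianGroup.of (⟨PUnit⟩ : FGMod A) -
      (FreeAbelianGroup.of (⟨PUnit⟩ : FGMod A) + FreeAbelianGroup.of (⟨PUnit⟩ : FGMod A)) ∈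
      AddSubgroup.closure (modRel A) := by
    refine AddSubgroup.subset_closure ⟨_, _, _, LinearMap.id, LinearMap.id, ?_, ?_, ?_, rfl⟩
    · exact Function.injective_id
    · intro x
      exact ⟨fun _ => ⟨x, rfl⟩, fun _ => rfl⟩
    · exact Function.surjective_id
  rw [← QuotientAddGroup.eq_zero_iff, QuotientAddGroup.mk_sub, QuotientAddGroup.mk_add] at h
  have h2 : G0.mk (⟨PUnit⟩ : FGMod A) - (G0.mk (⟨PUnit⟩ : FGMod A) + G0.mk (⟨PUnit⟩ : FGMod A)) = 0 := h
  rwa [sub_add_cancel_left, neg_eq_zero] at h2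

theorem G0_iso {A : Type} [Ring A] (M N : FGMod A) (f : M.carrier →ₗ[A] N.carrier)
    (hf : Function.Bijective f) : G0.mk M = G0.mk N := by
  have h : FreeAbelianGroup.of N -
      (FreeAbelianGroup.of M + FreeAbelianGroup.of (⟨PUnit⟩ : FGMod A)) ∈
      AddSubgroup.closure (modRel A) := by
    refine AddSubgroup.subset_closure ⟨M, N, _, f, 0, hf.1, ?_, ?_, rfl⟩
    · intro x
      exact ⟨fun _ => hf.2 x, fun _ => rfl⟩
    · intro x
      exact ⟨0, rfl⟩
  rw [← QuotientAddGroup.eq_zero_iff, QuotientAddGroup.mk_sub, QuotientAddGroup.mk_add] at h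
  have h2 : G0.mk N - (G0.mk M + G0.mk (⟨PUnit⟩ : FGMod A)) = 0 := h
  rw [G0_zero, add_zero, sub_eq_zero] at h2
  exact h2.symm

variable {R K A : Type} [CommRing R] [Field K] [Algebra R K] [Ring A] [Algebra K A] [Algebra R A]
  [IsScalarTower R K A] [IsDomain R] [IsFractionRing R K]

theorem algebraMap_smul_ext (Λ : Subalgebra R A) (hfin : Module.Finite R Λ)
    (h : Submodule.span K (Λ : Set A) = ⊤) (M : Lat R Λ) (r : R)
    (x : K ⊗[R] M.carrier) :
    algebraMap R A r • (show (ext Λ hfin h M).carrier from x) = (r • x : K ⊗[R] M.carrier) := by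
  change extAct Λ h M (algebraMap R A r) x = _
  rw [IsScalarTower.algebraMap_apply R K A, AlgHom.commutes, Module.algebraMap_end_apply,
    algebraMap_smul]

theorem exists_smul_mem (M : Type) [AddCommGroup M] [Module R M] (x : K ⊗[R] M) :
    ∃ r : R, r ≠ 0 ∧ ∃ m : M, (1 : K) ⊗ₜ[R] m = r • x := by
  have h1 : IsBaseChange K (TensorProduct.mk R K M 1) := TensorProduct.isBaseChange R M K
  have h2 : IsLocalizedModule (nonZeroDivisors R) (TensorProduct.mk R K M 1) :=
    (isLocalizedModule_iff_isBaseChange (nonZeroDivisors R) K _).2 h1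
  obtain ⟨⟨m, s⟩, hs⟩ := h2.surj x
  exact ⟨s, nonZeroDivisors.coe_ne_zero s, m, hs.symm⟩

theorem isExt_ext (Λ : Subalgebra R A) (hfin : Module.Finite R Λ)
    (h : Submodule.span K (Λ : Set A) = ⊤) (M : Lat R Λ) : IsExt M (ext Λ hfin h M) := by
  refine ⟨((TensorProduct.mk R K M.carrier 1 : M.carrier →ₗ[R] K ⊗[R] M.carrier) :
    M.carrier →+ K ⊗[R] M.carrier), ?_, ?_, ?_⟩
  · have : Module.Flat R M.carrier := inferInstance
    intro a b hab
    have h1 : Function.Injective ((Algebra.linearMap R K).rTensor M.carrier) :=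
      Module.Flat.rTensor_preserves_injective_linearMap _ (IsFractionRing.injective R K)
    have h2 : (Algebra.linearMap R K).rTensor M.carrier ((1 : R) ⊗ₜ a) =
        (Algebra.linearMap R K).rTensor M.carrier ((1 : R) ⊗ₜ b) := by
      rw [LinearMap.rTensor_tmul, LinearMap.rTensor_tmul, Algebra.linearMap_apply, map_one]
      exact hab
    have h3 := congrArg (TensorProduct.lid R M.carrier) (h1 h2)
    simpa using h3
  · intro l m
    change (1 : K) ⊗ₜ[R] (l • m) = extAct Λ h M (l : A) ((1 : K) ⊗ₜ[R] m)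
    have : (l : A) = natMap K Λ ((1 : K) ⊗ₜ l) := by rw [natMap_tmul, one_smul]
    rw [this, extAct_natMap, tAct_tmul, one_mul]
  · intro v
    obtain ⟨r, hr, m, hm⟩ := exists_smul_mem (K := K) M.carrier (show K ⊗[R] M.carrier from v)
    exact ⟨r, hr, m, hm.trans (algebraMap_smul_ext Λ hfin h M r _).symm⟩

theorem isExt_unique (Λ : Subalgebra R A) (hfin : Module.Finite R Λ)
    (h : Submodule.span K (Λ : Set A) = ⊤) (M : Lat R Λ) (V : FGMod A) (hV : IsExt M V) :
    G0.mk (ext Λ hfin h M) = G0.mk V := by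
  obtain ⟨f, hinj, hlin, hsurj⟩ := hV
  let _ : Module K V.carrier := Module.compHom V.carrier (algebraMap K A)
  let _ : Module R V.carrier := Module.compHom V.carrier (algebraMap R A)
  have hRK : IsScalarTower R K V.carrier := ⟨fun r k v => by
    change algebraMap K A (r • k) • v = algebraMap R A r • algebraMap K A k • v
    rw [smul_smul, Algebra.smul_def, map_mul, ← IsScalarTower.algebraMap_apply R K A]⟩
  have hRf : ∀ (r : R) (m : M.carrier), f (r • m) = r • f m := by
    intro r m
    have := hlin (algebraMap R Λ r) m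
    rw [algebraMap_smul] at this
    exact this
  let f' : M.carrier →ₗ[R] V.carrier := { f with map_smul' := hRf }
  let T : K ⊗[R] M.carrier →ₗ[K] V.carrier := f'.liftBaseChange K
  have hT : ∀ (k : K) (m : M.carrier), T (k ⊗ₜ m) = algebraMap K A k • f m := fun k m =>
    LinearMap.liftBaseChange_tmul _ _ _ _
  have hTR : ∀ (r : R) (x : K ⊗[R] M.carrier), T (r • x) = algebraMap R A r • T x := by
    intro r x
    have : r • x = algebraMap R K r • x := (algebraMap_smul K r x).symm
    rw [this, map_smul, IsScalarTower.algebraMap_apply R K A]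
    rfl
  have hA : ∀ (r : R) (hr : r ≠ 0) (v : V.carrier), algebraMap R A r • v = 0 → v = 0 := by
    intro r hr v hv
    have h1 : algebraMap K A ((algebraMap R K r)⁻¹) • algebraMap R A r • v = v := by
      rw [smul_smul, IsScalarTower.algebraMap_apply R K A, ← map_mul, inv_mul_cancel₀, map_one,
        one_smul]
      exact fun h0 => hr ((IsFractionRing.injective R K) (by rw [h0, map_zero]))
    rw [← h1, hv, smul_zero]
  refine G0_iso _ _ { toFun := T, map_add' := map_add T, map_smul' := ?_ } ⟨?_, ?_⟩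
  · intro a x
    change T (extAct Λ h M a x) = a • T x
    obtain ⟨z, rfl⟩ := (natMap_bijective (K := K) Λ h).2 a
    rw [extAct_natMap]
    change K ⊗[R] M.carrier at x
    induction z using TensorProduct.induction_on with
    | zero => simp
    | add z w hz hw =>
      rw [map_add, map_add, LinearMap.add_apply, map_add, hz, hw, add_smul]
    | tmul k b =>
      induction x using TensorProduct.induction_on with
      | zero => simp
      | add x y hx hy => rw [map_add, map_add, map_add, smul_add, hx, hy]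
      | tmul k' m =>
        rw [tAct_tmul, natMap_tmul, hT, hT, hlin, Algebra.smul_def, smul_smul, smul_smul,
          map_mul, mul_assoc, mul_assoc, Algebra.commutes k' (b : A)]
  · change Function.Injective T
    rw [injective_iff_map_eq_zero]
    intro x hx
    obtain ⟨r, hr, m, hm⟩ := exists_smul_mem (K := K) M.carrier x
    have h1 : T (1 ⊗ₜ m) = 0 := by rw [hm, hTR, hx, smul_zero]
    rw [hT, map_one, one_smul] at h1
    have h2 : m = 0 := hinj (by rw [h1, map_zero])
    rw [h2, TensorProduct.tmul_zero] at hm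
    have h3 : algebraMap R K r • x = 0 := by rw [algebraMap_smul, ← hm]
    rcases smul_eq_zero.1 h3 with h4 | h4
    · exact absurd ((IsFractionRing.injective R K) (by rw [h4, map_zero])) hr
    · exact h4
  · intro v
    obtain ⟨r, hr, m, hm⟩ := hsurj v
    refine ⟨((algebraMap R K r)⁻¹) ⊗ₜ[R] m, ?_⟩
    change T _ = v
    rw [hT, hm, smul_smul, IsScalarTower.algebraMap_apply R K A, ← map_mul, inv_mul_cancel₀, map_one,
        one_smul]
    exact fun h0 => hr ((IsFractionRing.injective R K) (by rw [h0, map_zero]))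

theorem isExtMap_phi0 (Λ : Subalgebra R A) (hfin : Module.Finite R Λ)
    (h : Submodule.span K (Λ : Set A) = ⊤) : IsExtMap Λ (phi0 Λ hfin h) := by
  refine ⟨fun M => ⟨_, isExt_ext Λ hfin h M⟩, fun M V hV => ?_⟩
  rw [phi0_mk]
  exact isExt_unique Λ hfin h M V hV

end

instance isFrac (p : ℕ) [Fact p.Prime] (K : Type) [Field K] [Algebra ℤ_[p] K] [Algebra ℚ_[p] K]
    [IsScalarTower ℤ_[p] ℚ_[p] K] [FiniteDimensional ℚ_[p] K] : IsFractionRing (valRing p K) K :=
  integralClosure.isFractionRing_of_finite_extension ℚ_[p] K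

end

end Pool.Agent.X39.SW
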