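import Pool.Agent.X39.SW.Theta

set_option autoImplicit false
set_option linter.unusedSectionVars false

namespace Pool.Agent.X39.SW

open scoped TensorProduct

noncomputable section

instance (P : Submodule HH.Λ KG) : AddCommGroup P := Module.addCommMonoidToAddCommGroup RR

/-- a submodule over the order from an `R`-submodule stable under the generators -/
def mkSub (P : Submodule RR KG) (h1 : ∀ v ∈ P, gx * v ∈ P) (h2 : ∀ v ∈ P, ge * v ∈ P) :
    Submodule HH.Λ KG where
  carrier := P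
  zero_mem' := P.zero_mem
  add_mem' := P.add_mem
  smul_mem' := by
    rintro ⟨l, hl⟩ v hv
    change l * v ∈ P
    have hl' : l ∈ Algebra.adjoin RR {gx, ge} := hl
    induction hl' using Algebra.adjoin_induction generalizing v with
    | mem x hx =>
      rcases hx with rfl | rfl
      · exact h1 v hv
      · exact h2 v hv
    | algebraMap r =>
      rw [← Algebra.smul_def]
      exact P.smul_mem r hv
    | add x y hx' hy' hx hy =>
      rw [add_mul]
      exact P.add_mem (hx hx' hv) (hy hy' hv)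
    | mul x y hx' hy' hx hy =>
      rw [mul_assoc]
      exact hx hx' (hy hy' hv)

/-- comparison -/
def mkSubEquiv (P : Submodule RR KG) (h1 : ∀ v ∈ P, gx * v ∈ P) (h2 : ∀ v ∈ P, ge * v ∈ P) :
    P ≃ₗ[RR] mkSub P h1 h2 where
  toFun v := ⟨v.1, v.2⟩
  invFun v := ⟨v.1, v.2⟩
  map_add' _ _ := rfl
  map_smul' r v := by
    apply Subtype.ext
    rfl
  left_inv _ := rfl
  right_inv _ := rfl

/-- the basic parametrisation -/
def uu : (RR × RR) →ₗ[RR] KG :=
  LinearMap.coprod (LinearMap.toSpanSingleton RR KG (1 - ge)) (LinearMap.toSpanSingleton RR KG (gx * (1 - ge)))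

theorem uu_apply (s t : RR) : uu (s, t) = s • (1 - ge) + t • (gx * (1 - ge)) := rfl

theorem ge_mul_one_sub : ge * (1 - ge) = 0 := by
  rw [mul_sub, ge_mul_ge, mul_one, sub_self]

theorem gx_sq_mul : gx * (gx * (1 - ge)) = -(1 - ge) := by
  have h : gx * gx + 1 = 2 * ge := congrArg Subtype.val X_mul_X
  have h1 : (gx * gx + 1) * (1 - ge) = 0 := by
    rw [h, mul_assoc, ge_mul_one_sub, mul_zero]
  rw [add_mul, one_mul] at h1
  rw [← mul_assoc]
  exact eq_neg_of_add_eq_zero_left h1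

theorem gx_mul_uu (s t : RR) : gx * uu (s, t) = uu (-t, s) := by
  rw [uu_apply, uu_apply, mul_add, mul_smul_comm, mul_smul_comm, gx_sq_mul, smul_neg, neg_smul]
  abel

theorem ge_mul_uu (z : RR × RR) : ge * uu z = 0 := by
  obtain ⟨s, t⟩ := z
  rw [uu_apply, mul_add, mul_smul_comm, mul_smul_comm, mul_left_comm, ge_mul_one_sub]
  simp

theorem uu_eq (s t : RR) : uu (s, t) = MonoidAlgebra.single 1 ((s : KK) / 2) +
    MonoidAlgebra.single (Multiplicative.ofAdd 2) (-(s : KK) / 2) +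
    MonoidAlgebra.single (Multiplicative.ofAdd 1) ((t : KK) / 2) +
    MonoidAlgebra.single (Multiplicative.ofAdd 3) (-(t : KK) / 2) := by
  have h2 : (1 - ge : KG) = (1 / 2 : KK) • (1 - g2) := by
    rw [ge, smul_add, smul_sub]
    have : (1 : KG) = (1 / 2 : KK) • 1 + (1 / 2 : KK) • 1 := by
      rw [← add_smul]; norm_num
    nth_rewrite 1 [this]
    abel
  have h3 : gx * g2 = MonoidAlgebra.single (Multiplicative.ofAdd 3) 1 := by
    rw [gx, g2, MonoidAlgebra.single_mul_single, one_mul, ← ofAdd_add]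
    rfl
  rw [uu_apply, h2, mul_smul_comm, mul_sub, mul_one, h3]
  have e1 : s • (1 / 2 : KK) • (1 - g2) = ((s : KK) / 2) • (1 - g2 : KG) := by
    change (s : KK) • (1 / 2 : KK) • (1 - g2) = _
    rw [smul_smul]; ring_nf
  have e2 : t • (1 / 2 : KK) • (gx - MonoidAlgebra.single (Multiplicative.ofAdd 3) 1) =
      ((t : KK) / 2) • (gx - MonoidAlgebra.single (Multiplicative.ofAdd 3) 1 : KG) := by
    change (t : KK) • (1 / 2 : KK) • (gx - MonoidAlgebra.single (Multiplicative.ofAdd 3) 1) = _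
    rw [smul_smul]; ring_nf
  rw [e1, e2, smul_sub, smul_sub, g2, gx, MonoidAlgebra.one_def]
  simp only [MonoidAlgebra.smul_single, smul_eq_mul, mul_one]
  rw [neg_div, neg_div, MonoidAlgebra.single_neg, MonoidAlgebra.single_neg]
  abel

theorem uu_inj : Function.Injective uu := by
  rw [injective_iff_map_eq_zero]
  rintro ⟨s, t⟩ h
  rw [uu_eq] at h
  have h1 := congrArg (fun f : KG => f.coeff 1) h
  have h2 := congrArg (fun f : KG => f.coeff (Multiplicative.ofAdd 1)) h
  simp only [MonoidAlgebra.coeff_add, MonoidAlgebra.coeff_single, Finsupp.add_apply,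
    MonoidAlgebra.coeff_zero, Finsupp.coe_zero, Pi.zero_apply, Finsupp.single_apply] at h1 h2
  rw [if_pos trivial, if_neg (by decide), if_neg (by decide), if_neg (by decide)] at h1
  rw [if_neg (by decide), if_neg (by decide), if_pos trivial, if_neg (by decide)] at h2
  have h1' : (s : KK) = 0 := by linear_combination 2 * h1
  have h2' : (t : KK) = 0 := by linear_combination 2 * h2
  exact Prod.ext (Subtype.ext h1') (Subtype.ext h2')

/-- The `R`-submodule `{s (1 - e) + t x (1 - e)}`. -/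
def PM : Submodule RR KG := LinearMap.range uu

/-- The `R`-submodule of index two given by `1 + √3 ∣ s + t`. -/
def PN : Submodule RR KG where
  carrier := {v | ∃ s t : RR, unif ∣ s + t ∧ v = uu (s, t)}
  zero_mem' := ⟨0, 0, by simp, (map_zero uu).symm⟩
  add_mem' := by
    rintro _ _ ⟨s, t, h, rfl⟩ ⟨s', t', h', rfl⟩
    refine ⟨s + s', t + t', ?_, by rw [← map_add]; rfl⟩
    have : s + s' + (t + t') = (s + t) + (s' + t') := by ring
    rw [this]
    exact dvd_add h h'
  smul_mem' := by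
    rintro r _ ⟨s, t, h, rfl⟩
    refine ⟨r * s, r * t, ?_, by rw [← map_smul]; rfl⟩
    rw [← mul_add]
    exact h.mul_left r

theorem PM_gx (v : KG) (hv : v ∈ PM) : gx * v ∈ PM := by
  obtain ⟨⟨s, t⟩, rfl⟩ := hv
  exact ⟨(-t, s), (gx_mul_uu s t).symm⟩

theorem PM_ge (v : KG) (hv : v ∈ PM) : ge * v ∈ PM := by
  obtain ⟨z, rfl⟩ := hv
  rw [ge_mul_uu]
  exact zero_mem _

theorem PN_gx (v : KG) (hv : v ∈ PN) : gx * v ∈ PN := by
  obtain ⟨s, t, h, rfl⟩ := hv
  refine ⟨-t, s, ?_, gx_mul_uu s t⟩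
  have : -t + s = (s + t) - 2 * t := by ring
  rw [this]
  exact dvd_sub h (unif_dvd_two.mul_right t)

theorem PN_ge (v : KG) (hv : v ∈ PN) : ge * v ∈ PN := by
  obtain ⟨s, t, h, rfl⟩ := hv
  rw [ge_mul_uu]
  exact zero_mem _

/-- the module underlying the lattice `M` -/
abbrev SM : Submodule HH.Λ KG := mkSub PM PM_gx PM_ge
/-- the module underlying the lattice `N` -/
abbrev SN : Submodule HH.Λ KG := mkSub PN PN_gx PN_ge

theorem unif_ne_zero : unif ≠ 0 := by
  intro h
  have := unif_dvd_two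
  rw [h, zero_dvd_iff] at this
  norm_num at this

/-- a basis of `PM` -/
def eM : (RR × RR) ≃ₗ[RR] SM :=
  (LinearEquiv.ofInjective uu uu_inj).trans (mkSubEquiv PM PM_gx PM_ge)

/-- the parametrisation of `PN` -/
def uN : (RR × RR) →ₗ[RR] KG where
  toFun z := uu (unif * z.1 - z.2, z.2)
  map_add' a b := by
    rw [← map_add]
    congr 1
    exact Prod.ext (by simp; ring) rfl
  map_smul' r a := by
    rw [RingHom.id_apply, ← map_smul]
    congr 1
    exact Prod.ext (by simp; ring) rfl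

theorem uN_inj : Function.Injective uN := by
  rw [injective_iff_map_eq_zero]
  rintro ⟨a, b⟩ h
  have h1 : ((unif * a - b, b) : RR × RR) = 0 := uu_inj (by rw [map_zero]; exact h)
  have h2 : b = 0 := congrArg Prod.snd h1
  have h3 : unif * a - b = 0 := congrArg Prod.fst h1
  rw [h2, sub_zero] at h3
  rcases mul_eq_zero.1 h3 with h | h
  · exact absurd h unif_ne_zero
  · rw [h, h2]; rfl

theorem uN_range : LinearMap.range uN = PN := by
  ext v
  constructor
  · rintro ⟨⟨a, b⟩, rfl⟩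
    exact ⟨unif * a - b, b, ⟨a, by ring⟩, rfl⟩
  · rintro ⟨s, t, ⟨c, hc⟩, rfl⟩
    refine ⟨(c, t), ?_⟩
    change uu (unif * c - t, t) = _
    rw [← hc]
    congr 1
    exact Prod.ext (by simp) rfl

/-- a basis of `PN` -/
def eN : (RR × RR) ≃ₗ[RR] SN :=
  ((LinearEquiv.ofInjective uN uN_inj).trans (LinearEquiv.ofEq _ _ uN_range)).trans
    (mkSubEquiv PN PN_gx PN_ge)

instance : Module.Free RR SM := Module.Free.of_equiv eM
instance : Module.Free RR SN := Module.Free.of_equiv eN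
instance : Module.Finite HH.Λ SM :=
  have : Module.Finite RR SM := Module.Finite.equiv eM
  Module.Finite.of_restrictScalars_finite RR HH.Λ SM
instance : Module.Finite HH.Λ SN :=
  have : Module.Finite RR SN := Module.Finite.equiv eN
  Module.Finite.of_restrictScalars_finite RR HH.Λ SN

/-- The lattice `M`. -/
def LM : Lat RR HH.Λ where
  carrier := SM

/-- The lattice `N`. -/
def LN : Lat RR HH.Λ where
  carrier := SN

theorem SN_le : SN ≤ SM := by
  rintro _ ⟨s, t, -, rfl⟩
  exact ⟨(s, t), rfl⟩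

/-- the inclusion of `N` in `M` -/
def inc0 : SN →ₗ[HH.Λ] SM := Submodule.inclusion SN_le

/-- the inclusion of `N` in `M` -/
def inc : LN.carrier →ₗ[HH.Λ] LM.carrier := inc0

theorem inc_inj : Function.Injective inc := Submodule.inclusion_injective SN_le

theorem DD_M : DD LM.carrier = ⊤ := by
  rw [eq_top_iff]
  intro m _
  rw [mem_DD]
  revert m
  change ∀ m : SM, True → E • m = 0
  rintro ⟨v, hv⟩ -
  apply Subtype.ext
  change ge * v = 0
  obtain ⟨z, rfl⟩ := hv
  exact ge_mul_uu z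

theorem DD_N : DD LN.carrier = ⊤ := by
  rw [eq_top_iff]
  intro m _
  rw [mem_DD]
  revert m
  change ∀ m : SN, True → E • m = 0
  rintro ⟨v, hv⟩ -
  apply Subtype.ext
  change ge * v = 0
  obtain ⟨s, t, -, rfl⟩ := hv
  exact ge_mul_uu _

theorem two_inc (m : LM.carrier) : ∃ n : LN.carrier, inc n = (2 : ℕ) • m := by
  change ∃ n : SN, inc0 n = (2 : ℕ) • (show SM from m)
  obtain ⟨v, hv⟩ : SM := m
  obtain ⟨⟨s, t⟩, rfl⟩ := hv
  refine ⟨⟨uu (2 * s, 2 * t), ⟨2 * s, 2 * t, ?_, rfl⟩⟩, ?_⟩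
  · rw [← mul_add]
    exact unif_dvd_two.mul_right _
  · apply Subtype.ext
    change uu (2 * s, 2 * t) = (2 : ℕ) • uu (s, t)
    rw [← Nat.cast_smul_eq_nsmul RR, ← map_smul]
    rfl

theorem mem_range_inc (s t : RR) (h : uu (s, t) ∈ PM) :
      ((show LM.carrier from (⟨uu (s, t), h⟩ : SM)) ∈ (inc : LN.carrier →+ LM.carrier).range ↔
        unif ∣ s + t) := by
  constructor
  · rintro ⟨n, h2⟩
    obtain ⟨n, hn⟩ : SN := n
    have h3 : n = uu (s, t) := congrArg (Subtype.val : SM → KG) h2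
    subst h3
    obtain ⟨s', t', hd, he⟩ := hn
    have := uu_inj he
    rw [Prod.mk.injEq] at this
    rw [this.1, this.2]
    exact hd
  · intro hd
    exact ⟨(⟨uu (s, t), ⟨s, t, hd, rfl⟩⟩ : SN), rfl⟩

theorem index_inc : (inc : LN.carrier →+ LM.carrier).range.index = 2 := by
  rw [AddSubgroup.index_eq_two_iff]
  refine ⟨(⟨uu (1, 0), ⟨(1, 0), rfl⟩⟩ : SM), ?_⟩
  intro (b : SM)
  obtain ⟨v, hv⟩ := b
  obtain ⟨⟨s, t⟩, rfl⟩ := hv
  have e : ((⟨uu (s, t), ⟨(s, t), rfl⟩⟩ : SM) + (⟨uu (1, 0), ⟨(1, 0), rfl⟩⟩ : SM) : SM) =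
      ⟨uu (s + 1, t), ⟨(s + 1, t), rfl⟩⟩ := by
    apply Subtype.ext
    change uu (s, t) + uu (1, 0) = uu (s + 1, t)
    rw [← map_add]
    congr 1
    exact Prod.ext rfl (add_zero t)
  have e1 := mem_range_inc (s + 1) t ⟨(s + 1, t), rfl⟩
  rw [← e] at e1
  have e2 := mem_range_inc s t ⟨(s, t), rfl⟩
  have key : Xor (unif ∣ s + 1 + t) (unif ∣ s + t) := by
    have h3 : s + 1 + t = s + t + 1 := by ring
    rw [h3]
    rcases unif_dvd_or (s + t) with h | h
    · refine Or.inr ⟨h, fun h' => not_unif_dvd_one ?_⟩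
      have := dvd_sub h' h
      rwa [add_sub_cancel_left] at this
    · refine Or.inl ⟨h, fun h' => not_unif_dvd_one ?_⟩
      have := dvd_sub h h'
      rwa [add_sub_cancel_left] at this
  rcases key with ⟨h1, h2⟩ | ⟨h1, h2⟩
  · exact Or.inl ⟨e1.2 h1, fun h => h2 (e2.1 h)⟩
  · exact Or.inr ⟨e2.2 h1, fun h => h2 (e1.1 h)⟩

end

end Pool.Agent.X39.SW
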