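import Mathlib

set_option autoImplicit false
set_option linter.unusedSectionVars false

namespace Pool.Agent.X39.SW

noncomputable section

theorem even_or_odd (A : ℤ_[2]) : (∃ k, A = 2 * k) ∨ (∃ k, A = 2 * k + 1) := by
  have key : ∀ B : ℤ_[2], PadicInt.toZMod B = 0 → ∃ k, B = 2 * k := by
    intro B hB
    have : B ∈ RingHom.ker (PadicInt.toZMod (p := 2)) := hB
    rw [PadicInt.ker_toZMod, PadicInt.maximalIdeal_eq_span_p, Ideal.mem_span_singleton] at this
    obtain ⟨k, hk⟩ := this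
    exact ⟨k, by simpa using hk⟩
  have h2 : ∀ z : ZMod 2, z = 0 ∨ z = 1 := by decide
  rcases h2 (PadicInt.toZMod A) with h | h
  · exact Or.inl (key A h)
  · right
    obtain ⟨k, hk⟩ := key (A - 1) (by rw [map_sub, h, map_one, sub_self])
    exact ⟨k, by rw [← hk]; ring⟩

theorem two_mul_ne_one (k : ℤ_[2]) : 2 * k ≠ 1 := by
  intro h
  have : IsUnit ((2 : ℕ) : ℤ_[2]) := by
    push_cast
    exact IsUnit.of_mul_eq_one _ h
  exact PadicInt.prime_p.not_isUnit this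

theorem exists_int_of_sq {r : ℚ_[2]} (h : ‖r ^ 2‖ ≤ 1) : ∃ z : ℤ_[2], (z : ℚ_[2]) = r := by
  rw [norm_pow] at h
  have : ‖r‖ ≤ 1 := by
    by_contra hc
    push Not at hc
    have := one_lt_pow₀ hc (two_ne_zero)
    linarith
  exact ⟨⟨r, this⟩, rfl⟩

instance fact_nonsq : Fact (∀ r : ℚ_[2], r ^ 2 ≠ 3 + 0 * r) := ⟨by
  intro r hr
  rw [zero_mul, add_zero] at hr
  have h3 : ‖(3 : ℚ_[2])‖ ≤ 1 := by
    have := PadicInt.norm_le_one (3 : ℤ_[2])
    exact this
  obtain ⟨z, hz⟩ := exists_int_of_sq (r := r) (by rw [hr]; exact h3)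
  have hz2 : z ^ 2 = 3 := by
    apply Subtype.coe_injective
    change (z : ℚ_[2]) ^ 2 = 3
    rw [hz, hr]
  rcases even_or_odd z with ⟨k, rfl⟩ | ⟨k, rfl⟩
  · exact two_mul_ne_one (2 * k ^ 2 - 1) (by linear_combination hz2)
  · have h1 : 2 * (2 * k ^ 2 + 2 * k - 1) = (0 : ℤ_[2]) := by linear_combination hz2
    have h2 : (2 * k ^ 2 + 2 * k - 1) = (0 : ℤ_[2]) := by
      rcases mul_eq_zero.1 h1 with h | h
      · norm_num at h
      · exact h
    exact two_mul_ne_one (k ^ 2 + k) (by linear_combination h2)⟩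

/-- The field `K = ℚ_2(√3)`. -/
abbrev KK : Type := QuadraticAlgebra ℚ_[2] 3 0

example : Field KK := inferInstance
example : Algebra ℤ_[2] KK := inferInstance
example : Algebra ℚ_[2] KK := inferInstance
example : IsScalarTower ℤ_[2] ℚ_[2] KK := inferInstance
example : FiniteDimensional ℚ_[2] KK := inferInstance

/-- Its valuation ring. -/
abbrev RR : Subalgebra ℤ_[2] KK := integralClosure ℤ_[2] KK

theorem int_inj {a b : ℤ_[2]} (h : algebraMap ℤ_[2] ℚ_[2] a = algebraMap ℤ_[2] ℚ_[2] b) : a = b :=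
  IsFractionRing.injective ℤ_[2] ℚ_[2] h

theorem norm_three : ‖(3 : ℚ_[2])‖ = 1 := by
  have := (Padic.norm_natCast_eq_one_iff (p := 2) (n := 3)).2 (by norm_num)
  push_cast at this
  exact this

theorem norm_map_le (a : ℤ_[2]) : ‖algebraMap ℤ_[2] ℚ_[2] a‖ ≤ 1 := PadicInt.norm_le_one a

theorem mem_RR_iff (z : KK) : z ∈ RR ↔ ∃ a b : ℤ_[2],
    z = ⟨algebraMap ℤ_[2] ℚ_[2] a, algebraMap ℤ_[2] ℚ_[2] b⟩ := by
  constructor
  · intro hz
    have hz' : IsIntegral ℤ_[2] z := hz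
    let σ : KK →ₐ[ℤ_[2]] KK :=
      { starRingEnd KK with
        commutes' := by
          intro r
          change star (algebraMap ℤ_[2] KK r) = _
          rw [IsScalarTower.algebraMap_apply ℤ_[2] ℚ_[2] KK, QuadraticAlgebra.algebraMap_eq]
          ext <;> simp }
    have hσ : IsIntegral ℤ_[2] (star z) := hz'.map σ
    have h1 := hz'.add hσ
    have h2 := hz'.mul hσ
    have e1 : z + star z = algebraMap ℚ_[2] KK (2 * z.re) := by
      rw [QuadraticAlgebra.algebraMap_eq]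
      ext <;> simp
      ring
    have e2 : z * star z = algebraMap ℚ_[2] KK (z.re ^ 2 - 3 * z.im ^ 2) := by
      rw [QuadraticAlgebra.algebraMap_eq]
      ext <;> simp <;> ring
    rw [e1, isIntegral_algebraMap_iff (algebraMap ℚ_[2] KK).injective,
      IsIntegrallyClosed.isIntegral_iff] at h1
    rw [e2, isIntegral_algebraMap_iff (algebraMap ℚ_[2] KK).injective,
      IsIntegrallyClosed.isIntegral_iff] at h2
    obtain ⟨A, hA⟩ := h1
    obtain ⟨B, hB⟩ := h2
    obtain ⟨C, hC⟩ := exists_int_of_sq (r := 2 * z.im) (by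
      have e : (3 : ℚ_[2]) * (2 * z.im) ^ 2 = algebraMap ℤ_[2] ℚ_[2] (A ^ 2 - 4 * B) := by
        rw [map_sub, map_pow, map_mul, map_ofNat, hA, hB]
        ring
      have : ‖(3 : ℚ_[2]) * (2 * z.im) ^ 2‖ ≤ 1 := by
        rw [e]
        exact norm_map_le _
      rwa [norm_mul, norm_three, one_mul] at this)
    change algebraMap ℤ_[2] ℚ_[2] C = _ at hC
    have hABC : A ^ 2 - 4 * B = 3 * C ^ 2 := by
      apply int_inj
      rw [map_sub, map_mul, map_mul, map_pow, map_pow, map_ofNat, map_ofNat, hA, hB, hC]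
      ring
    have two : (2 : ℚ_[2]) ≠ 0 := two_ne_zero
    rcases even_or_odd A with ⟨k, rfl⟩ | ⟨k, rfl⟩ <;> rcases even_or_odd C with ⟨l, rfl⟩ | ⟨l, rfl⟩
    · refine ⟨k, l, ?_⟩
      rw [map_mul, map_ofNat] at hA hC
      ext
      · exact (mul_left_cancel₀ two hA).symm
      · exact (mul_left_cancel₀ two hC).symm
    · exact absurd (by linear_combination hABC) (two_mul_ne_one (2 * k ^ 2 - 2 * B - 6 * l ^ 2 - 6 * l - 1))
    · exact absurd (by linear_combination (-1) * hABC) (two_mul_ne_one (-2 * k ^ 2 - 2 * k + 2 * B + 6 * l ^ 2))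
    · have h1 : 2 * (2 * k ^ 2 + 2 * k - 2 * B - 6 * l ^ 2 - 6 * l - 1) = (0 : ℤ_[2]) := by
        linear_combination hABC
      have h2 : (2 * k ^ 2 + 2 * k - 2 * B - 6 * l ^ 2 - 6 * l - 1) = (0 : ℤ_[2]) := by
        rcases mul_eq_zero.1 h1 with h | h
        · norm_num at h
        · exact h
      exact absurd (by linear_combination h2) (two_mul_ne_one (k ^ 2 + k - B - 3 * l ^ 2 - 3 * l))
  · rintro ⟨a, b, rfl⟩
    have hω : IsIntegral ℤ_[2] (QuadraticAlgebra.omega : KK) := by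
      refine ⟨Polynomial.X ^ 2 - Polynomial.C 3, Polynomial.monic_X_pow_sub_C 3 two_ne_zero, ?_⟩
      rw [Polynomial.eval₂_sub, Polynomial.eval₂_pow, Polynomial.eval₂_X, Polynomial.eval₂_C, sq,
        QuadraticAlgebra.omega_mul_omega_eq_mk, IsScalarTower.algebraMap_eq ℤ_[2] ℚ_[2] KK,
        RingHom.comp_apply, map_ofNat, QuadraticAlgebra.algebraMap_eq]
      ext <;> simp
    have : (⟨algebraMap ℤ_[2] ℚ_[2] a, algebraMap ℤ_[2] ℚ_[2] b⟩ : KK) = algebraMap ℤ_[2] KK a +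
        algebraMap ℤ_[2] KK b * QuadraticAlgebra.omega := by
      rw [IsScalarTower.algebraMap_apply ℤ_[2] ℚ_[2] KK, IsScalarTower.algebraMap_apply ℤ_[2] ℚ_[2] KK,
        QuadraticAlgebra.algebraMap_eq, QuadraticAlgebra.algebraMap_eq]
      ext <;> simp
    rw [this]
    exact (isIntegral_algebraMap.add (isIntegral_algebraMap.mul hω))

/-- `√3` in the valuation ring. -/
def s3 : RR := ⟨⟨0, 1⟩, (mem_RR_iff _).2 ⟨0, 1, by rw [map_zero, map_one]⟩⟩

theorem three_eq : (3 : KK) = ⟨3, 0⟩ := by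
  have : (3 : KK) = algebraMap ℚ_[2] KK 3 := by rw [map_ofNat]
  rw [this, QuadraticAlgebra.algebraMap_eq]

theorem s3_mul_s3 : s3 * s3 = 3 := by
  apply Subtype.ext
  change (⟨0, 1⟩ : KK) * ⟨0, 1⟩ = (3 : KK)
  rw [three_eq]
  ext <;> simp

/-- the uniformiser `1 + √3` -/
def unif : RR := 1 + s3

theorem unif_dvd_two : unif ∣ 2 := ⟨s3 - 1, by
  rw [unif]
  linear_combination (-1) * s3_mul_s3⟩

theorem exists_rep (r : RR) : ∃ a b : ℤ_[2], r = algebraMap ℤ_[2] RR a + algebraMap ℤ_[2] RR b * s3 := by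
  obtain ⟨a, b, h⟩ := (mem_RR_iff _).1 r.2
  refine ⟨a, b, ?_⟩
  apply Subtype.ext
  rw [h]
  change _ = algebraMap ℤ_[2] KK a + algebraMap ℤ_[2] KK b * (⟨0, 1⟩ : KK)
  rw [IsScalarTower.algebraMap_apply ℤ_[2] ℚ_[2] KK, IsScalarTower.algebraMap_apply ℤ_[2] ℚ_[2] KK,
        QuadraticAlgebra.algebraMap_eq, QuadraticAlgebra.algebraMap_eq]
  ext <;> simp

theorem unif_dvd_or (r : RR) : unif ∣ r ∨ unif ∣ r + 1 := by
  obtain ⟨a, b, rfl⟩ := exists_rep r
  have h1 : algebraMap ℤ_[2] RR a + algebraMap ℤ_[2] RR b * s3 = algebraMap ℤ_[2] RR (a - b) +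
      algebraMap ℤ_[2] RR b * unif := by
    rw [unif, map_sub]
    ring
  rw [h1]
  rcases even_or_odd (a - b) with ⟨k, hk⟩ | ⟨k, hk⟩
  · left
    rw [hk, map_mul, map_ofNat]
    exact dvd_add (unif_dvd_two.mul_right _) (Dvd.intro_left _ rfl)
  · right
    rw [hk, map_add, map_mul, map_ofNat, map_one]
    have : (2 * (algebraMap ℤ_[2] RR) k + 1 + (algebraMap ℤ_[2] RR) b * unif + 1) =
      2 * ((algebraMap ℤ_[2] RR) k + 1) + (algebraMap ℤ_[2] RR) b * unif := by ring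
    rw [this]
    exact dvd_add (unif_dvd_two.mul_right _) (Dvd.intro_left _ rfl)

theorem not_unif_dvd_one : ¬ unif ∣ 1 := by
  rintro ⟨w, hw⟩
  obtain ⟨a, b, h⟩ := (mem_RR_iff _).1 w.2
  have h1 : (⟨1, 0⟩ : KK) = (⟨1, 1⟩ : KK) *
      ⟨algebraMap ℤ_[2] ℚ_[2] a, algebraMap ℤ_[2] ℚ_[2] b⟩ := by
    have := congrArg (fun z : RR => (z : KK)) hw
    rw [← h]
    have e : ((unif : RR) : KK) = ⟨1, 1⟩ := by
      rw [unif]
      change (1 : KK) + ⟨0, 1⟩ = _
      ext <;> simp [QuadraticAlgebra.re_one, QuadraticAlgebra.im_one]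
    rw [← e]
    exact this
  have h2 := congrArg QuadraticAlgebra.re h1
  have h3 := congrArg QuadraticAlgebra.im h1
  simp only [QuadraticAlgebra.mk_mul_mk, one_mul, mul_one, zero_mul, add_zero] at h2 h3
  have h4 : a + 3 * b = 1 := by
    apply int_inj
    rw [map_add, map_mul, map_ofNat, map_one, h2]
  have h5 : b + a = 0 := by
    apply int_inj
    rw [map_add, map_zero, h3]
  exact two_mul_ne_one b (by linear_combination h4 - h5)

end

end Pool.Agent.X39.SW
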