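import Pool.Agent.X39.SW.Fin

set_option autoImplicit false
set_option linter.unusedSectionVars false

namespace Pool.Agent.X39.SW

open scoped TensorProduct

noncomputable section

theorem index_rel : (WW LM.carrier).index ≡ 2 * (WW LN.carrier).index [MOD 3] := by
  have := finite_R LM
  have := finite_R LN
  let ι : LN.carrier →+ LM.carrier := (inc : LN.carrier →+ LM.carrier)
  have hι : ∀ n, ι n = inc n := fun _ => rfl
  have hιinj : Function.Injective ι := inc_inj
  set S := (WW LN.carrier).map ι with hS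
  set T := WW LM.carrier with hT
  have hST : S ≤ T := by
    rintro _ ⟨n, ⟨n', hn'⟩, rfl⟩
    refine ⟨ι n', ?_⟩
    rw [← map_nsmul, hn', map_add, map_neg, hι, hι, J_map]
  have htf := lat_tf LM
  have hDM : ∀ m : LM.carrier, m ∈ DD LM.carrier := fun m => by rw [DD_M]; trivial
  have hDN : ∀ m : LN.carrier, m ∈ DD LN.carrier := fun m => by rw [DD_N]; trivial
  have hSindex : S.index = 2 * (WW LN.carrier).index := by
    have h1 : S ≤ ι.range := by
      rintro _ ⟨n, -, rfl⟩
      exact ⟨n, rfl⟩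
    have h2 : S.relIndex ι.range = (WW LN.carrier).index := by
      rw [AddMonoidHom.range_eq_map, hS, AddSubgroup.relIndex_map_map_of_injective _ _ hιinj,
        AddSubgroup.relIndex_top_right]
    have h3 : ι.range.index = 2 := index_inc
    rw [← AddSubgroup.relIndex_mul_index h1, h2, h3, mul_comm]
  have hrel : S.relIndex T * T.index = S.index := AddSubgroup.relIndex_mul_index hST
  have hNne : (WW LN.carrier).index ≠ 0 := WW_index
  have h0 : S.relIndex T ≠ 0 := by
    intro h0
    rw [h0, zero_mul, hSindex] at hrel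
    omega
  have hmod : S.relIndex T ≡ 1 [MOD 3] := by
    refine relIndex_modEq_one htf J _ _ (fun t _ => J_J (hDM t)) ?_ ?_ ?_ h0
    · rintro t ht
      obtain ⟨t', ht', h⟩ := T_closed htf t ⟨ht, hDM t⟩
      exact ⟨t', ht'.1, h⟩
    · rintro _ ⟨n, hn, rfl⟩
      obtain ⟨n', hn', h⟩ := T_closed (lat_tf LN) n ⟨hn, hDN n⟩
      refine ⟨ι n', ⟨n', hn'.1, rfl⟩, ?_⟩
      rw [← map_nsmul, h, map_add, map_neg, hι, hι, J_map]
    · rintro t ⟨t', ht'⟩
      obtain ⟨n, hn⟩ := two_inc t
      obtain ⟨n', hn'⟩ := two_inc t'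
      refine ⟨n, ⟨n', ?_⟩, hn⟩
      apply inc_inj
      rw [map_nsmul, hn', ht', map_add, map_neg, J_map, hn, smul_add, smul_neg, map_nsmul]
  have := (hmod.mul_right T.index)
  rw [hrel, hSindex, one_mul] at this
  exact this.symm

theorem mk_ne : G0R.mk LM ≠ G0R.mk LN := by
  have := finite_R LM
  have := finite_R LN
  intro h
  have h1 := congrArg Theta h
  rw [Theta_mk, Theta_mk] at h1
  have h2 : theta LM = theta LN := h1
  have h3 := congrArg (Units.val) h2
  change ((WW LM.carrier).relIndex (DD LM.carrier) : ZMod 3) =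
    ((WW LN.carrier).relIndex (DD LN.carrier) : ZMod 3) at h3
  rw [DD_M, DD_N, AddSubgroup.relIndex_top_right, AddSubgroup.relIndex_top_right,
    ZMod.natCast_eq_natCast_iff] at h3
  have h4 := index_rel
  have h5 : ¬ 3 ∣ (WW LN.carrier).relIndex (DD LN.carrier) := WW_relIndex_three
  rw [DD_N, AddSubgroup.relIndex_top_right] at h5
  have h6 := h3.symm.trans h4
  unfold Nat.ModEq at h6
  omega

theorem extMap_inc_surj : Function.Surjective (extMap HH.Λ HH.finite HH.span_eq_top inc) := by
  rw [extMap_eq]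
  intro w
  induction w using TensorProduct.induction_on with
  | zero => exact ⟨0, map_zero _⟩
  | add x y hx hy =>
    obtain ⟨a, rfl⟩ := hx
    obtain ⟨b, rfl⟩ := hy
    exact ⟨a + b, map_add _ _ _⟩
  | tmul k m =>
    obtain ⟨n, hn⟩ := two_inc m
    refine ⟨(k / 2) ⊗ₜ n, ?_⟩
    rw [LinearMap.lTensor_tmul]
    change (k / 2) ⊗ₜ[RR] (inc n) = k ⊗ₜ[RR] m
    rw [hn, ← Nat.cast_smul_eq_nsmul RR, TensorProduct.tmul_smul, TensorProduct.smul_tmul']
    congr 1
    have e : algebraMap RR KK ((2 : ℕ) : RR) = 2 := by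
      rw [map_natCast]
      rfl
    change algebraMap RR KK ((2 : ℕ) : RR) * (k / 2) = k
    rw [e]
    ring

theorem phi_not_injective : ¬ Function.Injective (phi0 HH.Λ HH.finite HH.span_eq_top) := by
  intro h
  apply mk_ne
  apply h
  rw [phi0_mk, phi0_mk]
  symm
  refine G0_iso _ _ (extMap HH.Λ HH.finite HH.span_eq_top inc) ⟨?_, extMap_inc_surj⟩
  rw [extMap_eq]
  have : Module.Flat RR KK := IsLocalization.flat KK (nonZeroDivisors RR)
  exact Module.Flat.lTensor_preserves_injective_linearMap _ inc_inj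

theorem swanFails : GroupSwanFails HH :=
  ⟨phi0 HH.Λ HH.finite HH.span_eq_top, isExtMap_phi0 HH.Λ HH.finite HH.span_eq_top,
    phi_not_injective⟩

end

end Pool.Agent.X39.SW
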