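import Pool.Agent.X39.SW.Defs
import Pool.Agent.X39.SW.Fld

set_option autoImplicit false
set_option linter.unusedSectionVars false

namespace Pool.Agent.X39.SW

open scoped TensorProduct

noncomputable section

/-- The cyclic group of order 4. -/
abbrev G4 : Type := Multiplicative (ZMod 4)

/-- The group algebra `K[C_4]`. -/
abbrev KG : Type := MonoidAlgebra KK G4

/-- the generator -/
def gx : KG := MonoidAlgebra.single (Multiplicative.ofAdd 1) 1

/-- its square -/
def g2 : KG := MonoidAlgebra.single (Multiplicative.ofAdd 2) 1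

/-- the idempotent `(1 + x²)/2` -/
def ge : KG := (1 / 2 : KK) • (1 + g2)

theorem gx_mul_gx : gx * gx = g2 := by
  rw [gx, g2, MonoidAlgebra.single_mul_single, one_mul, ← ofAdd_add]
  rfl

theorem g2_mul_g2 : g2 * g2 = 1 := by
  rw [g2, MonoidAlgebra.single_mul_single, one_mul, ← ofAdd_add]
  rfl

theorem two_smul_ge : (2 : KK) • ge = 1 + g2 := by
  rw [ge, smul_smul]
  norm_num

theorem ge_mul_ge : ge * ge = ge := by
  rw [ge, smul_mul_smul_comm, mul_add, add_mul, add_mul, g2_mul_g2, mul_one, mul_one, one_mul]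
  have : (1 + g2 + (g2 + 1) : KG) = (2 : KK) • (1 + g2) := by
    rw [two_smul]; abel
  rw [this, smul_smul]
  norm_num

/-- The order `Λ = R[x, (1 + x²)/2]`. -/
def Lam : Subalgebra RR KG := Algebra.adjoin RR {gx, ge}

theorem gx_mem : gx ∈ Lam := Algebra.subset_adjoin (by simp)
theorem ge_mem : ge ∈ Lam := Algebra.subset_adjoin (by simp)

theorem comul_gx : Coalgebra.comul (R := KK) gx = gx ⊗ₜ[KK] gx := by
  rw [gx, MonoidAlgebra.comul_single]
  simp

theorem comul_g2 : Coalgebra.comul (R := KK) g2 = g2 ⊗ₜ[KK] g2 := by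
  rw [g2, MonoidAlgebra.comul_single]
  simp

theorem comul_ge : Coalgebra.comul (R := KK) ge = ge ⊗ₜ[KK] ge + (1 - ge) ⊗ₜ[KK] (1 - ge) := by
  have h1 : Coalgebra.comul (R := KK) (1 : KG) = 1 ⊗ₜ[KK] 1 := by
    exact Bialgebra.comul_one
  have h2 : (1 - ge : KG) = (1 / 2 : KK) • (1 - g2) := by
    rw [ge, smul_add, smul_sub]
    have : (1 : KG) = (1 / 2 : KK) • 1 + (1 / 2 : KK) • 1 := by
      rw [← add_smul]; norm_num
    nth_rewrite 1 [this]
    abel
  rw [h2, ge, map_smul, map_add, h1, comul_g2]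
  simp only [TensorProduct.smul_tmul_smul, TensorProduct.add_tmul, TensorProduct.tmul_add,
    TensorProduct.sub_tmul, TensorProduct.tmul_sub, smul_add, smul_sub]
  module

theorem antipode_gx : HopfAlgebra.antipode KK gx = gx * g2 := by
  rw [gx, g2, MonoidAlgebra.antipode_single, MonoidAlgebra.single_mul_single, one_mul, ← ofAdd_add,
    ← ofAdd_neg]
  simp
  rfl

theorem antipode_g2 : HopfAlgebra.antipode KK g2 = g2 := by
  rw [g2, MonoidAlgebra.antipode_single, ← ofAdd_neg]
  simp
  rfl

theorem antipode_ge : HopfAlgebra.antipode KK ge = ge := by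
  rw [ge, map_smul, map_add, antipode_g2, HopfAlgebra.antipode_one]

/-- The multiplicative monoid of the pure tensors `b ⊗ c`, `b, c ∈ Λ`. -/
def tmon : Submonoid (KG ⊗[KK] KG) where
  carrier := {z | ∃ b ∈ Lam, ∃ c ∈ Lam, z = b ⊗ₜ[KK] c}
  one_mem' := ⟨1, one_mem _, 1, one_mem _, rfl⟩
  mul_mem' := by
    rintro _ _ ⟨b, hb, c, hc, rfl⟩ ⟨b', hb', c', hc', rfl⟩
    exact ⟨b * b', mul_mem hb hb', c * c', mul_mem hc hc', by
      rw [Algebra.TensorProduct.tmul_mul_tmul]⟩

theorem comul_mem_adjoin (a : KG) (ha : a ∈ Lam) : Coalgebra.comul (R := KK) a ∈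
    Algebra.adjoin RR (tmon : Set (KG ⊗[KK] KG)) := by
  have h : Lam ≤ (Algebra.adjoin RR (tmon : Set (KG ⊗[KK] KG))).comap
      ((Bialgebra.comulAlgHom KK KG).restrictScalars RR) := by
    refine Algebra.adjoin_le ?_
    rintro _ (rfl | rfl)
    · change Coalgebra.comul (R := KK) gx ∈ Algebra.adjoin RR (tmon : Set (KG ⊗[KK] KG))
      rw [comul_gx]
      exact Algebra.subset_adjoin ⟨_, gx_mem, _, gx_mem, rfl⟩
    · change Coalgebra.comul (R := KK) ge ∈ Algebra.adjoin RR (tmon : Set (KG ⊗[KK] KG))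
      rw [comul_ge]
      exact add_mem (Algebra.subset_adjoin ⟨_, ge_mem, _, ge_mem, rfl⟩)
        (Algebra.subset_adjoin ⟨_, sub_mem (one_mem _) ge_mem, _, sub_mem (one_mem _) ge_mem, rfl⟩)
  exact h ha

theorem span_eq : Submodule.span RR {z : KG ⊗[KK] KG |
      ∃ b ∈ Lam, ∃ c ∈ Lam, z = b ⊗ₜ[KK] c} =
    Subalgebra.toSubmodule (Algebra.adjoin RR (tmon : Set (KG ⊗[KK] KG))) := by
  rw [Algebra.adjoin_eq_span, Submonoid.closure_eq]
  rfl

theorem of_mem_Lam (g : G4) : MonoidAlgebra.single g (1 : KK) ∈ Lam := by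
  have h : ∀ k : ZMod 4, k = 0 ∨ k = 1 ∨ k = 2 ∨ k = 3 := by decide
  obtain ⟨k, rfl⟩ := Multiplicative.ofAdd.surjective g
  have hg2 : g2 ∈ Lam := gx_mul_gx ▸ mul_mem gx_mem gx_mem
  rcases h k with rfl | rfl | rfl | rfl
  · exact one_mem _
  · exact gx_mem
  · exact hg2
  · have : (MonoidAlgebra.single (Multiplicative.ofAdd (3 : ZMod 4)) (1 : KK) : KG) = gx * g2 := by
      rw [gx, g2, MonoidAlgebra.single_mul_single, one_mul, ← ofAdd_add]
      rfl
    rw [this]
    exact mul_mem gx_mem hg2

/-- The Hopf order. -/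
def HH : HopfOrder RR KK KG where
  Λ := Lam
  finite := by
    refine Algebra.finite_adjoin_of_finite_of_isIntegral (Set.toFinite _) ?_
    rintro _ (rfl | rfl)
    · refine ⟨Polynomial.X ^ 4 - Polynomial.C 1, Polynomial.monic_X_pow_sub_C 1 (by norm_num), ?_⟩
      have : gx ^ 4 = 1 := by
        have : gx ^ 4 = (gx * gx) * (gx * gx) := by ring
        rw [this, gx_mul_gx, g2_mul_g2]
      rw [Polynomial.eval₂_sub, Polynomial.eval₂_pow, Polynomial.eval₂_X, Polynomial.eval₂_C, this,
        map_one, sub_self]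
    · refine ⟨Polynomial.X ^ 2 - Polynomial.X, Polynomial.monic_X_pow_sub (by simp), ?_⟩
      rw [Polynomial.eval₂_sub, Polynomial.eval₂_pow, Polynomial.eval₂_X, sq, ge_mul_ge, sub_self]
  span_eq_top := by
    rw [eq_top_iff]
    rintro a -
    induction a using MonoidAlgebra.induction_linear with
    | zero => exact zero_mem _
    | add f g hf hg => exact add_mem hf hg
    | single g r =>
      have : (MonoidAlgebra.single g r : KG) = r • MonoidAlgebra.single g (1 : KK) := by simp
      rw [this]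
      exact Submodule.smul_mem _ _ (Submodule.subset_span (of_mem_Lam g))
  comul_mem := by
    intro a ha
    have := comul_mem_adjoin a ha
    have h2 : Coalgebra.comul (R := KK) a ∈ Submodule.span RR {z : KG ⊗[KK] KG |
      ∃ b ∈ Lam, ∃ c ∈ Lam, z = b ⊗ₜ[KK] c} := by
      rw [span_eq]
      exact this
    exact h2
  counit_mem := by
    intro a ha
    induction ha using Algebra.adjoin_induction with
    | mem x hx =>
      rcases hx with rfl | rfl
      · rw [gx, MonoidAlgebra.counit_single]
        exact ⟨1, by simp⟩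
      · rw [ge, map_smul, map_add, Bialgebra.counit_one, g2, MonoidAlgebra.counit_single]
        refine ⟨1, ?_⟩
        simp
        norm_num
    | algebraMap r =>
      have : (algebraMap RR KG r) = (r : KK) • (1 : KG) := by
        rw [Algebra.algebraMap_eq_smul_one]
        rfl
      rw [this, map_smul, Bialgebra.counit_one, smul_eq_mul, mul_one]
      exact ⟨r, rfl⟩
    | add x y _ _ hx hy =>
      rw [map_add]
      exact add_mem hx hy
    | mul x y _ _ hx hy =>
      rw [Bialgebra.counit_mul]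
      exact mul_mem hx hy
  antipode_mem := by
    intro a ha
    induction ha using Algebra.adjoin_induction with
    | mem x hx =>
      rcases hx with rfl | rfl
      · rw [antipode_gx]
        exact mul_mem gx_mem (gx_mul_gx ▸ mul_mem gx_mem gx_mem)
      · rw [antipode_ge]
        exact ge_mem
    | algebraMap r =>
      have : (algebraMap RR KG r) = (r : KK) • (1 : KG) := by
        rw [Algebra.algebraMap_eq_smul_one]
        rfl
      rw [this, map_smul, HopfAlgebra.antipode_one, ← this]
      exact algebraMap_mem _ _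
    | add x y _ _ hx hy =>
      rw [map_add]
      exact add_mem hx hy
    | mul x y _ _ hx hy =>
      rw [HopfAlgebra.antipode_mul_distrib]
      exact mul_mem hx hy


end

end Pool.Agent.X39.SW
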