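import Mathlib

set_option autoImplicit false
set_option linter.unusedSectionVars false

/-! # Hopf orders and the map from the lattice Grothendieck group -/

namespace Pool.Agent.X39.SW

open scoped TensorProduct

noncomputable section

/-- An `R`-Hopf order in a `K`-Hopf algebra `A`, where `R` is a domain with field of
fractions `K`. -/
structure HopfOrder (R K A : Type) [CommRing R] [Field K] [Algebra R K] [Ring A]
    [HopfAlgebra K A] [Algebra R A] [IsScalarTower R K A] where
  /-- the underlying `R`-subalgebra of `A` -/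
  Λ : Subalgebra R A
  /-- it is a finitely generated `R`-module -/
  finite : Module.Finite R Λ
  /-- it spans `A` over `K` -/
  span_eq_top : Submodule.span K (Λ : Set A) = ⊤
  /-- `Δ(Λ) ⊆ Λ ⊗_R Λ` -/
  comul_mem : ∀ a ∈ Λ, Coalgebra.comul (R := K) a ∈
    Submodule.span R {z : A ⊗[K] A | ∃ b ∈ Λ, ∃ c ∈ Λ, z = b ⊗ₜ[K] c}
  /-- `ε(Λ) ⊆ R` -/
  counit_mem : ∀ a ∈ Λ, Coalgebra.counit (R := K) a ∈ (algebraMap R K).range
  /-- `S(Λ) ⊆ Λ` -/
  antipode_mem : ∀ a ∈ Λ, HopfAlgebra.antipode K a ∈ Λ

/-- A lattice over an `R`-algebra `A`: a finitely generated `A`-module that is free as an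
`R`-module. -/
structure Lat (R : Type) (A : Type) [CommRing R] [Ring A] [Algebra R A] : Type 1 where
  carrier : Type
  [acg : AddCommGroup carrier]
  [modR : Module R carrier]
  [mod : Module A carrier]
  [tower : IsScalarTower R A carrier]
  [fin : Module.Finite A carrier]
  [free : Module.Free R carrier]

attribute [instance] Lat.acg Lat.modR Lat.mod Lat.tower Lat.fin Lat.free

/-- A bundled finitely generated module over a ring. -/
structure FGMod (A : Type) [Ring A] : Type 1 where
  carrier : Type
  [acg : AddCommGroup carrier]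
  [mod : Module A carrier]
  [fin : Module.Finite A carrier]

attribute [instance] FGMod.acg FGMod.mod FGMod.fin

/-- The relations `[M] = [M'] + [M'']` for short exact sequences of lattices. -/
def latRel (R : Type) (A : Type) [CommRing R] [Ring A] [Algebra R A] :
    Set (FreeAbelianGroup (Lat R A)) :=
  {x | ∃ (M' M M'' : Lat R A) (f : M'.carrier →ₗ[A] M.carrier) (g : M.carrier →ₗ[A] M''.carrier),
    Function.Injective f ∧ Function.Exact f g ∧ Function.Surjective g ∧
      x = FreeAbelianGroup.of M - (FreeAbelianGroup.of M' + FreeAbelianGroup.of M'')}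

/-- The Grothendieck group `G_0^R(A)` of `A`-lattices. -/
abbrev G0R (R : Type) (A : Type) [CommRing R] [Ring A] [Algebra R A] : Type 1 :=
  FreeAbelianGroup (Lat R A) ⧸ AddSubgroup.closure (latRel R A)

/-- The class of a lattice. -/
def G0R.mk {R : Type} {A : Type} [CommRing R] [Ring A] [Algebra R A] (M : Lat R A) : G0R R A :=
  QuotientAddGroup.mk (FreeAbelianGroup.of M)

/-- The relations `[M] = [M'] + [M'']` for short exact sequences of finitely generated modules. -/
def modRel (A : Type) [Ring A] : Set (FreeAbelianGroup (FGMod A)) :=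
  {x | ∃ (M' M M'' : FGMod A) (f : M'.carrier →ₗ[A] M.carrier) (g : M.carrier →ₗ[A] M''.carrier),
    Function.Injective f ∧ Function.Exact f g ∧ Function.Surjective g ∧
      x = FreeAbelianGroup.of M - (FreeAbelianGroup.of M' + FreeAbelianGroup.of M'')}

/-- The Grothendieck group `G_0(A)` of finitely generated `A`-modules. -/
abbrev G0 (A : Type) [Ring A] : Type 1 :=
  FreeAbelianGroup (FGMod A) ⧸ AddSubgroup.closure (modRel A)

/-- The class of a finitely generated module. -/
def G0.mk {A : Type} [Ring A] (M : FGMod A) : G0 A :=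
  QuotientAddGroup.mk (FreeAbelianGroup.of M)

/-- `V` is the extension of scalars `M ⊗_R K` of the `Λ`-lattice `M`: there is an injective
`Λ`-linear map `f : M → V` such that every element of `V` has a nonzero `R`-multiple in the image
of `f` (that is, `V = K f(M)`). -/
def IsExt {R A : Type} [CommRing R] [Ring A] [Algebra R A] {Λ : Subalgebra R A} (M : Lat R Λ)
    (V : FGMod A) : Prop :=
  ∃ f : M.carrier →+ V.carrier, Function.Injective f ∧
    (∀ (l : Λ) (m : M.carrier), f (l • m) = (l : A) • f m) ∧
    ∀ v : V.carrier, ∃ r : R, r ≠ 0 ∧ ∃ m : M.carrier, f m = algebraMap R A r • v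

/-- `φ : G_0^R(Λ) → G_0(A)` is the extension of scalars map `[M] ↦ [M ⊗_R K]`. -/
def IsExtMap {R A : Type} [CommRing R] [Ring A] [Algebra R A] (Λ : Subalgebra R A)
    (φ : G0R R Λ →+ G0 A) : Prop :=
  (∀ M : Lat R Λ, ∃ V : FGMod A, IsExt M V) ∧
    ∀ (M : Lat R Λ) (V : FGMod A), IsExt M V → φ (G0R.mk M) = G0.mk V

/-- The Swan property fails for the Hopf order `Λ`: the extension of scalars map
`φ_Λ : G_0^R(Λ) → G_0(A)` exists and is not injective. -/
def SwanFails {R K A : Type} [CommRing R] [Field K] [Algebra R K] [Ring A]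
    [HopfAlgebra K A] [Algebra R A] [IsScalarTower R K A] (H : HopfOrder R K A) : Prop :=
  ∃ φ : G0R R H.Λ →+ G0 A, IsExtMap H.Λ φ ∧ ¬ Function.Injective φ

/-- An `R`-Hopf order in the group algebra `K[G]`. -/
abbrev GroupHopfOrder (R K G : Type) [CommRing R] [Field K] [Algebra R K] [Group G] : Type :=
  HopfOrder R K (MonoidAlgebra K G)

/-- The Swan property fails for the Hopf order `Λ` in the group algebra `K[G]`. -/
def GroupSwanFails {R K G : Type} [CommRing R] [Field K] [Algebra R K] [Group G]
    (H : GroupHopfOrder R K G) : Prop :=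
  SwanFails H

/-- The valuation ring of a finite extension `K` of `ℚ_p`: the integral closure of `ℤ_p` in `K`. -/
abbrev valRing (p : ℕ) [Fact p.Prime] (K : Type) [Field K] [Algebra ℤ_[p] K] :
    Subalgebra ℤ_[p] K := integralClosure ℤ_[p] K

end

end Pool.Agent.X39.SW
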