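import Pool.Agent.X39.SW.Ord
import Pool.Agent.X39.SW.Core

set_option autoImplicit false
set_option linter.unusedSectionVars false

namespace Pool.Agent.X39.SW

open scoped TensorProduct

noncomputable section

/-- the generator as an element of the order -/
def X : HH.Λ := ⟨gx, gx_mem⟩
/-- the idempotent as an element of the order -/
def E : HH.Λ := ⟨ge, ge_mem⟩

theorem X_mul_X : X * X + 1 = 2 * E := by
  apply Subtype.ext
  change gx * gx + 1 = 2 * ge
  rw [gx_mul_gx]
  have : (2 * ge : KG) = (2 : KK) • ge := by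
    rw [two_mul, two_smul]
  rw [this, two_smul_ge]
  abel

theorem X_mul_E : X * E = E * X := by
  apply Subtype.ext
  exact mul_comm _ _

theorem E_mul_E : E * E = E := by
  apply Subtype.ext
  exact ge_mul_ge

section finite_index

variable (M : Type) [AddCommGroup M] [Module RR M]

/-- representatives of `R` modulo 2 -/
def rep (u : Bool × Bool) : RR := (if u.1 then 1 else 0) + (if u.2 then 1 else 0) * s3

theorem am2 : algebraMap ℤ_[2] RR 2 = 2 := map_ofNat _ 2

theorem exists_rep2 (r : RR) : ∃ (u : Bool × Bool) (w : RR), r = rep u + 2 * w := by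
  obtain ⟨a, b, rfl⟩ := exists_rep r
  rcases even_or_odd a with ⟨k, rfl⟩ | ⟨k, rfl⟩ <;> rcases even_or_odd b with ⟨l, rfl⟩ | ⟨l, rfl⟩
  · refine ⟨(false, false), algebraMap _ _ k + algebraMap _ _ l * s3, ?_⟩
    simp only [rep, map_mul, am2, Bool.false_eq_true, if_false]; ring
  · refine ⟨(false, true), algebraMap _ _ k + algebraMap _ _ l * s3, ?_⟩
    simp only [rep, map_add, map_mul, am2, map_one, Bool.false_eq_true, if_false, if_true]; ring
  · refine ⟨(true, false), algebraMap _ _ k + algebraMap _ _ l * s3, ?_⟩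
    simp only [rep, map_add, map_mul, am2, map_one, Bool.false_eq_true, if_false, if_true]; ring
  · refine ⟨(true, true), algebraMap _ _ k + algebraMap _ _ l * s3, ?_⟩
    simp only [rep, map_add, map_mul, am2, map_one, if_true]; ring

/-- the subgroup `2M` -/
def twoM : AddSubgroup M := (nsmulAddMonoidHom (α := M) 2).range

theorem mem_twoM (m : M) : m ∈ twoM M ↔ ∃ m', (2 : ℕ) • m' = m := by
  rfl

theorem twoM_index [Module.Finite RR M] : (twoM M).index ≠ 0 := by
  obtain ⟨n, s, hs⟩ := Module.Finite.exists_fin (R := RR) (M := M)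
  have : Finite (M ⧸ twoM M) := by
    refine Finite.of_surjective
      (fun u : Fin n → Bool × Bool => ((∑ i, rep (u i) • s i : M) : M ⧸ twoM M)) ?_
    intro x
    induction x using QuotientAddGroup.induction_on with
    | H m =>
      have hm : m ∈ Submodule.span RR (Set.range s) := by rw [hs]; trivial
      rw [Submodule.mem_span_range_iff_exists_fun] at hm
      obtain ⟨c, rfl⟩ := hm
      choose u w huw using fun i => exists_rep2 (c i)
      refine ⟨u, ?_⟩
      rw [QuotientAddGroup.eq, mem_twoM]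
      refine ⟨∑ i, w i • s i, ?_⟩
      rw [Finset.smul_sum, neg_add_eq_sub, ← Finset.sum_sub_distrib]
      refine Finset.sum_congr rfl fun i _ => ?_
      rw [← sub_smul, ← Nat.cast_smul_eq_nsmul RR, smul_smul, huw i]
      congr 1
      push_cast
      ring
  exact AddSubgroup.index_ne_zero_of_finite

end finite_index

section

variable {M : Type} [AddCommGroup M] [Module RR M] [Module HH.Λ M] [IsScalarTower RR HH.Λ M]

/-- the map `m ↦ √3 x m` -/
def J : M →+ M where
  toFun m := s3 • X • m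
  map_zero' := by simp
  map_add' a b := by simp

theorem J_apply (m : M) : J m = s3 • X • m := rfl

variable (M) in
/-- the part of `M` killed by the idempotent -/
def DD : AddSubgroup M where
  carrier := {m | E • m = 0}
  zero_mem' := smul_zero _
  add_mem' := by
    intro a b ha hb
    change E • (a + b) = 0
    rw [smul_add, ha, hb, add_zero]
  neg_mem' := by
    intro a ha
    change E • (-a) = 0
    rw [smul_neg, ha, neg_zero]

theorem mem_DD (m : M) : m ∈ DD M ↔ E • m = 0 := Iff.rfl

variable (M) in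
/-- the part of `M` where `(-1 + √3 x)/2` makes sense -/
def WW : AddSubgroup M where
  carrier := {m | ∃ m', (2 : ℕ) • m' = -m + J m}
  zero_mem' := ⟨0, by simp⟩
  add_mem' := by
    rintro a b ⟨a', ha⟩ ⟨b', hb⟩
    exact ⟨a' + b', by rw [smul_add, ha, hb, map_add]; abel⟩
  neg_mem' := by
    rintro a ⟨a', ha⟩
    exact ⟨-a', by rw [smul_neg, ha, map_neg]; abel⟩

theorem mem_WW (m : M) : m ∈ WW M ↔ ∃ m', (2 : ℕ) • m' = -m + J m := Iff.rfl

theorem smul_comm' (l : HH.Λ) (r : RR) (m : M) : l • r • m = r • l • m := by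
  rw [← algebraMap_smul HH.Λ r m, smul_smul, ← Algebra.commutes, ← smul_smul, algebraMap_smul]

theorem E_J (m : M) : E • J m = J (E • m) := by
  rw [J_apply, J_apply, smul_comm', smul_smul E X, ← X_mul_E, smul_smul X E]

theorem J_mem_DD {m : M} (hm : m ∈ DD M) : J m ∈ DD M := by
  rw [mem_DD] at *
  rw [E_J, hm, map_zero]

theorem J_J {m : M} (hm : m ∈ DD M) : J (J m) = -((3 : ℕ) • m) := by
  rw [mem_DD] at hm
  have e : (X * X) • m + m = 0 := by
    have h1 : (X * X + 1) • m = (X * X) • m + (1 : HH.Λ) • m := add_smul _ _ _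
    rw [one_smul, X_mul_X, mul_smul, hm, smul_zero] at h1
    exact h1.symm
  rw [J_apply, J_apply, smul_comm', smul_smul s3 s3, smul_smul X X, s3_mul_s3,
    eq_neg_of_add_eq_zero_left e, smul_neg]
  congr 1
  rw [← Nat.cast_smul_eq_nsmul RR]
  rfl

theorem two_mem_WW (m : M) : (2 : ℕ) • m ∈ WW M :=
  ⟨-m + J m, by rw [smul_add, smul_neg, map_nsmul]⟩

theorem mem_T (htf : ∀ a : M, (2 : ℕ) • a = 0 → a = 0) {m m' : M} (hm : m ∈ DD M)
    (h : (2 : ℕ) • m' = -m + J m) : m' ∈ WW M ⊓ DD M := by
  have inj : ∀ a b : M, (2 : ℕ) • a = (2 : ℕ) • b → a = b := by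
    intro a b h
    rw [← sub_eq_zero]
    apply htf
    rw [smul_sub, h, sub_self]
  refine ⟨⟨m' - J m, ?_⟩, ?_⟩
  · apply inj
    have h2 : (2 : ℕ) • J m' = - J m + J (J m) := by
      rw [← map_nsmul, h, map_add, map_neg]
    have h3 := J_J hm
    rw [smul_add, smul_neg, h2, h3, h, smul_sub, h]
    abel
  · change m' ∈ DD M
    rw [mem_DD]
    apply htf
    have : (2 : ℕ) • E • m' = E • (2 : ℕ) • m' := (smul_comm _ _ _)
    rw [this, h, smul_add, smul_neg, E_J, (mem_DD m).1 hm]
    simp

theorem T_closed (htf : ∀ a : M, (2 : ℕ) • a = 0 → a = 0) (t : M) (ht : t ∈ WW M ⊓ DD M) :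
    ∃ t' ∈ WW M ⊓ DD M, (2 : ℕ) • t' = -t + J t := by
  obtain ⟨t', h⟩ := ht.1
  exact ⟨t', mem_T htf ht.2 h, h⟩

theorem WW_index [Module.Finite RR M] : (WW M).index ≠ 0 := by
  have h1 : twoM M ≤ WW M := by
    rintro _ ⟨m, rfl⟩
    exact two_mem_WW m
  intro h0
  have := AddSubgroup.index_dvd_of_le h1
  rw [h0, zero_dvd_iff] at this
  exact twoM_index M this

theorem WW_relIndex [Module.Finite RR M] : (WW M).relIndex (DD M) ≠ 0 := by
  intro h0
  have := AddSubgroup.relIndex_dvd_index_of_normal (WW M) (DD M)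
  rw [h0, zero_dvd_iff] at this
  exact WW_index this

theorem WW_relIndex_three [Module.Finite RR M] : ¬ 3 ∣ (WW M).relIndex (DD M) :=
  relIndex_not_three_dvd _ _ (fun t _ => two_mem_WW t) WW_relIndex

end

theorem finite_R (M : Lat RR HH.Λ) : Module.Finite RR M.carrier :=
  have : Module.Finite RR HH.Λ := HH.finite
  Module.Finite.trans HH.Λ M.carrier

theorem lat_tf (M : Lat RR HH.Λ) (a : M.carrier) (h : (2 : ℕ) • a = 0) : a = 0 := by
  rw [← Nat.cast_smul_eq_nsmul RR] at h
  rcases smul_eq_zero.1 h with h | h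
  · exfalso
    norm_num at h
  · exact h

theorem J_map {M N : Lat RR HH.Λ} (f : M.carrier →ₗ[HH.Λ] N.carrier) (m : M.carrier) :
    f (J m) = J (f m) := by
  rw [J_apply, J_apply, ← map_smul f X m]
  exact (f.restrictScalars RR).map_smul s3 (X • m)

theorem theta_exact (A B C : Lat RR HH.Λ) (f : A.carrier →ₗ[HH.Λ] B.carrier)
    (g : B.carrier →ₗ[HH.Λ] C.carrier) (hf : Function.Injective f) (hfg : Function.Exact f g)
    (hg : Function.Surjective g) :
    (WW B.carrier).relIndex (DD B.carrier) ≡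
      (WW A.carrier).relIndex (DD A.carrier) * (WW C.carrier).relIndex (DD C.carrier) [MOD 3] := by
  have := finite_R A
  have := finite_R B
  have := finite_R C
  have hD : (DD B.carrier).comap (f : A.carrier →+ B.carrier) = DD A.carrier := by
    ext a
    rw [AddSubgroup.mem_comap, mem_DD, mem_DD]
    change E • f a = 0 ↔ _
    rw [← map_smul]
    exact map_eq_zero_iff f hf
  have hW : (WW B.carrier).comap (f : A.carrier →+ B.carrier) = WW A.carrier := by
    ext a
    rw [AddSubgroup.mem_comap, mem_WW, mem_WW]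
    change (∃ b', (2 : ℕ) • b' = - f a + J (f a)) ↔ _
    constructor
    · rintro ⟨b', hb'⟩
      rw [← J_map, ← map_neg, ← map_add] at hb'
      have h1 : g b' = 0 := by
        apply lat_tf
        rw [← map_nsmul, hb']
        exact hfg.apply_apply_eq_zero _
      obtain ⟨a', rfl⟩ := (hfg b').1 h1
      exact ⟨a', hf (by rw [map_nsmul, hb'])⟩
    · rintro ⟨a', ha'⟩
      exact ⟨f a', by rw [← map_nsmul, ha', map_add, map_neg, J_map]⟩
  have hDC : (DD B.carrier).map (g : B.carrier →+ C.carrier) = DD C.carrier := by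
    ext c
    rw [AddSubgroup.mem_map]
    constructor
    · rintro ⟨b, hb, rfl⟩
      rw [mem_DD] at *
      change E • g b = 0
      rw [← map_smul, hb, map_zero]
    · intro hc
      obtain ⟨b, rfl⟩ := hg c
      rw [mem_DD] at hc
      refine ⟨b - E • b, ?_, ?_⟩
      · rw [mem_DD, smul_sub, smul_smul, E_mul_E, sub_self]
      · change g (b - E • b) = g b
        rw [map_sub, map_smul, hc, sub_zero]
  set I := (WW B.carrier ⊓ DD B.carrier).map (g : B.carrier →+ C.carrier) with hI
  have hIT : I ≤ WW C.carrier ⊓ DD C.carrier := by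
    rintro _ ⟨b, ⟨⟨b', hb'⟩, hbD⟩, rfl⟩
    refine ⟨⟨g b', ?_⟩, ?_⟩
    · change (2 : ℕ) • g b' = - g b + J (g b)
      rw [← map_nsmul, hb', map_add, map_neg, J_map]
    · rw [← hDC]
      exact ⟨b, hbD, rfl⟩
  have key := relIndex_exact (f : A.carrier →+ B.carrier) (g : B.carrier →+ C.carrier) (by
    ext b
    exact (hfg b).symm) (WW B.carrier ⊓ DD B.carrier) (DD B.carrier) inf_le_right
  rw [AddSubgroup.inf_relIndex_right, AddSubgroup.comap_inf, hW, hD,
    AddSubgroup.inf_relIndex_right, hDC, ← hI,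
    ← AddSubgroup.relIndex_mul_relIndex _ _ _ hIT inf_le_right,
    AddSubgroup.inf_relIndex_right] at key
  have hI0 : I.relIndex (WW C.carrier ⊓ DD C.carrier) ≠ 0 := by
    intro h0
    rw [h0, zero_mul, mul_zero] at key
    exact WW_relIndex key
  have hmod : I.relIndex (WW C.carrier ⊓ DD C.carrier) ≡ 1 [MOD 3] := by
    refine relIndex_modEq_one (lat_tf C) J _ _ (fun t ht => J_J ht.2) (T_closed (lat_tf C)) ?_ ?_ hI0
    · rintro _ ⟨b, hb, rfl⟩
      obtain ⟨b', hb', h⟩ := T_closed (lat_tf B) b hb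
      refine ⟨g b', ⟨b', hb', rfl⟩, ?_⟩
      change (2 : ℕ) • g b' = - g b + J (g b)
      rw [← map_nsmul, h, map_add, map_neg, J_map]
    · intro t ht
      have := ht.2
      rw [← hDC] at this
      obtain ⟨b, hb, rfl⟩ := this
      exact ⟨(2 : ℕ) • b, ⟨two_mem_WW b, nsmul_mem hb 2⟩, by rw [map_nsmul]⟩
  rw [key]
  have := hmod.mul_right ((WW C.carrier).relIndex (DD C.carrier))
  rw [one_mul] at this
  exact this.mul_left _

/-- the invariant modulo 3 -/
def theta (M : Lat RR HH.Λ) : (ZMod 3)ˣ :=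
  haveI : Fact (Nat.Prime 3) := ⟨by norm_num⟩
  Units.mk0 ((WW M.carrier).relIndex (DD M.carrier) : ZMod 3) (by
    have := finite_R M
    rw [Ne, ZMod.natCast_eq_zero_iff]
    exact WW_relIndex_three)

/-- the invariant on the Grothendieck group -/
def Theta : G0R RR HH.Λ →+ Additive (ZMod 3)ˣ :=
  QuotientAddGroup.lift _ (FreeAbelianGroup.lift fun M => Additive.ofMul (theta M)) (by
    rw [AddSubgroup.closure_le]
    rintro x ⟨A, B, C, f, g, hf, hfg, hg, rfl⟩
    simp only [SetLike.mem_coe, AddMonoidHom.mem_ker, map_sub, map_add,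
      FreeAbelianGroup.lift_apply_of]
    rw [sub_eq_zero, ← ofMul_mul]
    congr 1
    apply Units.ext
    have := theta_exact A B C f g hf hfg hg
    have h2 := (ZMod.natCast_eq_natCast_iff _ _ _).2 this
    rw [Nat.cast_mul] at h2
    exact h2)

theorem Theta_mk (M : Lat RR HH.Λ) : Theta (G0R.mk M) = Additive.ofMul (theta M) := by
  simp [Theta, G0R.mk]

end

end Pool.Agent.X39.SW
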